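import Pool.Agent.N620.WP.Mea

set_option autoImplicit false

/-! Codes of countable ordinals and boundedness. -/

namespace Pool.Agent.N480.OS

open Pool.Agent.Helper227 Pool.Agent.N620.WP
open MeasureTheory Ordinal Cardinal

/-- The relation on the natural numbers coded by `c`. -/
def Rel (c : ℕ → Bool) (i j : ℕ) : Prop := c (Nat.pair i j) = true

/-- `c` codes `α`: the relation coded by `c` is well-founded, and the rank of `0` is `α`. -/
def Codes (c : ℕ → Bool) (α : Ordinal.{0}) : Prop :=
  ∃ _ : IsWellFounded ℕ (Rel c), IsWellFounded.rank (Rel c) 0 = α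

theorem succ_lt_omega_one {a : Ordinal.{0}} (h : a < ω₁) : Order.succ a < ω₁ :=
  (isSuccLimit_omega 1).succ_lt h

theorem rank_lt_omega_one {N : Type} [Countable N] (S : N → N → Prop) [IsWellFounded N S] (a : N) :
    IsWellFounded.rank S a < ω₁ := by
  induction a using IsWellFounded.induction S with
  | ind a ih =>
    rw [IsWellFounded.rank_eq]
    exact Ordinal.iSup_lt_omega_one fun b => succ_lt_omega_one (ih b.1 b.2)

theorem Codes.lt {c : ℕ → Bool} {α : Ordinal.{0}} (h : Codes c α) : α < ω₁ := by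
  obtain ⟨h1, rfl⟩ := h
  exact rank_lt_omega_one _ _

theorem Codes.unique {c : ℕ → Bool} {α β : Ordinal.{0}} (h : Codes c α) (h' : Codes c β) :
    α = β := by
  obtain ⟨h1, rfl⟩ := h
  obtain ⟨h2, rfl⟩ := h'
  rfl

/-- Restriction of a function to the first `n` numbers. -/
def rs (b : ℕ → ℕ) (n : ℕ) : List ℕ := (List.range n).map b

@[simp] theorem length_rs (b : ℕ → ℕ) (n : ℕ) : (rs b n).length = n := by simp [rs]

theorem rs_eq_iff {x y : ℕ → ℕ} {k : ℕ} : rs x k = rs y k ↔ ∀ i < k, x i = y i := by
  unfold rs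
  constructor
  · intro h i hi
    have h1 := congrArg (fun l : List ℕ => l[i]?) h
    simp only [List.getElem?_map] at h1
    rw [List.getElem?_range hi] at h1
    simpa using h1
  · intro h
    refine List.map_congr_left fun i hi => h i (List.mem_range.1 hi)

/-- The node `p` is realized by some real. -/
def Ok (f : (ℕ → ℕ) → ℕ → Bool) (p : List ℕ × List ℕ) : Prop :=
  ∃ b, rs b p.1.length = p.1 ∧ p.2.IsChain (Rel (f b))

/-- The relation of nodes. -/
def Nd (f : (ℕ → ℕ) → ℕ → Bool) (q p : List ℕ × List ℕ) : Prop :=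
  Ok f q ∧ (∃ i, q.2 = i :: p.2) ∧ ∃ a, q.1 = p.1 ++ [a]

theorem wf_Nd {f : (ℕ → ℕ) → ℕ → Bool} (hf : Continuous f)
    (hW : ∀ b, WellFounded (Rel (f b))) : WellFounded (Nd f) := by
  rw [wellFounded_iff_isEmpty_descending_chain]
  refine ⟨fun ⟨p, hp⟩ => ?_⟩
  choose i hi using fun n => (hp n).2.1
  choose a ha using fun n => (hp n).2.2
  -- the limit
  let L := (p 0).1.length
  have hlen : ∀ n, (p n).1.length = L + n := by
    intro n
    induction n with
    | zero => rfl
    | succ n ih => rw [ha]; simp [ih]; omega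
  let b : ℕ → ℕ := fun k => if h : k < L then (p 0).1[k] else a (k - L)
  have hb : ∀ n, rs b (p n).1.length = (p n).1 := by
    intro n
    induction n with
    | zero =>
      refine List.ext_getElem (by simp) fun k h1 h2 => ?_
      simp only [rs, List.getElem_map, List.getElem_range]
      change (if h : k < L then (p 0).1[k] else a (k - L)) = _
      rw [dif_pos h2]
    | succ n ih =>
      have h1 : rs b (p (n + 1)).1.length = rs b (p n).1.length ++ [b (p n).1.length] := by
        rw [ha]
        simp [rs, List.range_succ]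
      rw [h1, ih, ha]
      congr 2
      rw [hlen]
      change (if h : L + n < L then (p 0).1[L + n] else a (L + n - L)) = _
      rw [dif_neg (by omega)]
      congr 1
      omega
  -- the chain
  have hsuf : ∀ n m, i (n + 1) :: i n :: (p n).2 <:+ (p (n + 2 + m)).2 := by
    intro n m
    induction m with
    | zero =>
      have h1 := hi (n + 1)
      have h2 := hi n
      change _ <:+ (p (n + 1 + 1)).2
      rw [h1, h2]
    | succ m ih =>
      have h1 := hi (n + 2 + m)
      change _ <:+ (p (n + 2 + m + 1)).2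
      rw [h1]
      exact ih.trans (List.suffix_cons _ _)
  have hrel : ∀ n, Rel (f b) (i (n + 1)) (i n) := by
    intro n
    by_contra hc
    have hU : IsOpen {b' : ℕ → ℕ | f b' (Nat.pair (i (n + 1)) (i n)) = false} := by
      have h1 : Continuous fun b' : ℕ → ℕ => f b' (Nat.pair (i (n + 1)) (i n)) :=
        (continuous_apply (A := fun _ : ℕ => Bool) _).comp hf
      exact (isOpen_discrete ({false} : Set Bool)).preimage h1
    have hbU : b ∈ {b' : ℕ → ℕ | f b' (Nat.pair (i (n + 1)) (i n)) = false} := by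
      unfold Rel at hc
      simpa using hc
    obtain ⟨I, u, hI, hu⟩ := isOpen_pi_iff.1 hU b hbU
    let m := I.sup id + 1
    obtain ⟨b', h1, h2⟩ := (hp (n + 1 + m)).1
    have h3 : rs b' (p (n + 2 + m)).1.length = (p (n + 2 + m)).1 := by
      have e : n + 1 + m + 1 = n + 2 + m := by omega
      rw [e] at h1
      exact h1
    have h4 : (p (n + 2 + m)).2.IsChain (Rel (f b')) := by
      have e : n + 1 + m + 1 = n + 2 + m := by omega
      rw [e] at h2
      exact h2
    have h5 : (i (n + 1) :: i n :: (p n).2).IsChain (Rel (f b')) := h4.suffix (hsuf n m)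
    have h6 : Rel (f b') (i (n + 1)) (i n) := by
      rw [List.isChain_cons_cons] at h5
      exact h5.1
    have h7 : b' ∈ {b' : ℕ → ℕ | f b' (Nat.pair (i (n + 1)) (i n)) = false} := by
      refine hu fun k hk => ?_
      have h8 : k < (p (n + 2 + m)).1.length := by
        have h9 : k ≤ I.sup id := Finset.le_sup (f := id) hk
        rw [hlen]
        omega
      have h9 : rs b' (p (n + 2 + m)).1.length = rs b (p (n + 2 + m)).1.length := by rw [h3, hb]
      rw [rs_eq_iff.1 h9 k h8]
      exact (hI k hk).2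
    unfold Rel at h6
    rw [Set.mem_ofPred_eq, h6] at h7
    cases h7
  exact (wellFounded_iff_isEmpty_descending_chain.1 (hW b)).false ⟨i, hrel⟩

/-- Boundedness. -/
theorem bounded {A : Set (ℕ → Bool)} (hA : AnalyticSet A) (hW : ∀ c ∈ A, WellFounded (Rel c)) :
    ∃ ρ < ω₁, ∀ c ∈ A, ∀ α, Codes c α → α ≤ ρ := by
  rw [AnalyticSet] at hA
  rcases hA with rfl | ⟨f, hf, rfl⟩
  · exact ⟨0, omega_pos 1, fun c hc => hc.elim⟩
  have hWF : WellFounded (Nd f) := wf_Nd hf fun b => hW _ ⟨b, rfl⟩
  have : IsWellFounded _ (Nd f) := ⟨hWF⟩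
  refine ⟨⨆ p, IsWellFounded.rank (Nd f) p, Ordinal.iSup_lt_omega_one fun p =>
    rank_lt_omega_one _ _, ?_⟩
  rintro c ⟨b, rfl⟩ α ⟨hc, rfl⟩
  have key : ∀ i h, (i :: h).IsChain (Rel (f b)) →
      IsWellFounded.rank (Rel (f b)) i ≤ IsWellFounded.rank (Nd f) (rs b (h.length + 1), i :: h) := by
    intro i
    induction i using IsWellFounded.induction (Rel (f b)) with
    | ind i ih =>
      intro h hch
      rw [IsWellFounded.rank_eq (Rel (f b))]
      refine Ordinal.iSup_le fun j => ?_
      rw [Order.succ_le_iff]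
      have h1 : (j.1 :: i :: h).IsChain (Rel (f b)) := List.isChain_cons_cons.2 ⟨j.2, hch⟩
      refine (ih j.1 j.2 (i :: h) h1).trans_lt (IsWellFounded.rank_lt_of_rel ?_)
      refine ⟨⟨b, by simp, h1⟩, ⟨j.1, rfl⟩, b (h.length + 1), ?_⟩
      simp [rs, List.range_succ]
  refine (key 0 [] (by simp)).trans ?_
  exact Ordinal.le_iSup _ _

end Pool.Agent.N480.OS
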