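import Pool.Agent.N480.OS.Hmg

set_option autoImplicit false

/-! Unions of `ω₁` many countable, meager or bounded sets. -/

namespace Pool.Agent.N480.OS

open Pool.Agent.Helper227 Pool.Agent.N620.WP
open MeasureTheory Ordinal Cardinal Filter Topology Encodable
open Pool.Agent.H685R3 (TuringInvariant Determined)
open Pool.Agent.Y588.PD (Fam RLe exists_fam)

variable {α : Ordinal.{0}} {g : ℕ → Option Ordinal.{0}} {m : ℕ}
variable {E : ℕ → List Bool → ℕ → Bool → Prop}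

/-- The root. -/
def g0 (α : Ordinal.{0}) : ℕ → Option Ordinal.{0} := fun n => if n = 0 then some α else none

theorem vd_g0 (α : Ordinal.{0}) : Vd α (g0 α) 0 := ⟨by simp [g0], fun k hk => by omega⟩

theorem Dn.of_pos {D : ℕ → (ℕ → Option Ordinal.{0}) → Prop}
    (h : ∀ m g, 0 < m → Vd α g m → ∃ m' g', Ex m g m' g' ∧ Vd α g' m' ∧ D m' g') : Dn α D := by
  intro m g hg
  obtain ⟨m', g', h1, h2, h3⟩ := h (max m 1) (ct m g) (by omega) (hg.ct _)
  refine ⟨m', g', Ex.trans ⟨le_max_left _ _, fun j hj => ?_⟩ h1, h2, h3⟩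
  rw [ct, if_pos (Or.inr hj)]

theorem uniq (hE : Fam E) {e : ℕ} {x : ℕ → Bool} {k k' n : ℕ} {v v' : Bool}
    (h : E e (pre x k) n v) (h' : E e (pre x k') n v') : v = v' :=
  hE.single _ _ _ _ _ (hE.mono _ _ _ _ _ (pre_prefix x (le_max_left k k')) h)
    (hE.mono _ _ _ _ _ (pre_prefix x (le_max_right k k')) h')

theorem mem_Xt {G : ℕ → Option Ordinal.{0}} (hG : ∀ m, Vd α G m) (h : ∀ n < m, G n = g n)
    {m' : ℕ} (hm : m ≤ m') : pre (st G) m' ∈ Xt α m g :=
  ⟨m', G, ⟨hm, h⟩, hG m', rfl⟩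

theorem pre_st {G : ℕ → Option Ordinal.{0}} (h : ∀ n < m, G n = g n) :
    pre (st g) m = pre (st G) m :=
  pre_eq_iff.2 fun n hn => by unfold st; rw [h n hn]

/-- The set attached to a sequence of countable sets. -/
def KB (B : Ordinal.{0} → Set (ℕ → Bool)) (α : Ordinal.{0}) : Set (ℕ → Bool) :=
  {y | ∀ b ∈ B α, TLe b y}

theorem union_countable {B : Ordinal.{0} → Set (ℕ → Bool)} (hB : ∀ α < ω₁, (B α).Countable)
    (hD : Determined (Att (KB B))) : {b | ∃ α < ω₁, b ∈ B α}.Countable := by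
  classical
  obtain ⟨E, hE, hE'⟩ := exists_fam
  obtain ⟨w, hw⟩ := select (K := KB B) (fun α hα => by
    rcases (B α).eq_empty_or_nonempty with h | h
    · exact ⟨fun _ => false, fun b hb => by rw [h] at hb; exact hb.elim⟩
    · obtain ⟨z, hz⟩ := (hB α hα).exists_eq_range h
      obtain ⟨y, hy⟩ := join_cone z
      refine ⟨y, fun b hb => ?_⟩
      rw [hz] at hb
      obtain ⟨n, rfl⟩ := hb
      exact hy n) hD
  let f : ℕ → Set (List Bool) → ℕ → Bool := fun e X n => decide (∃ d ∈ X, E e (jn w d) n true)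
  have key : ∀ α < ω₁, ∀ b ∈ B α, ∃ e, ∃ X ∈ XX, f e X = b := by
    intro α hα b hb
    by_contra hcon
    push Not at hcon
    let D : ℕ → ℕ → (ℕ → Option Ordinal.{0}) → Prop := fun e m g =>
      (∃ n v, v ≠ b n ∧ E e (jn w (pre (st g) m)) n v) ∨
        ∃ n, ∀ d ∈ Xt α m g, ¬ E e (jn w d) n (b n)
    have hDn : ∀ e, Dn α (D e) := by
      intro e
      refine Dn.of_pos fun m g hm hg => ?_
      by_contra hno
      push Not at hno
      refine hcon e (Xt α m g) ⟨α, m, g, hm, hg, rfl⟩ (funext fun n => ?_)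
      have h1 : ∀ v, (∃ d ∈ Xt α m g, E e (jn w d) n v) ↔ v = b n := by
        intro v
        constructor
        · rintro ⟨d, ⟨m', g', h1, h2, rfl⟩, h3⟩
          by_contra h4
          exact hno m' g' h1 h2 (Or.inl ⟨n, v, h4, h3⟩)
        · rintro rfl
          by_contra h4
          push Not at h4
          exact hno m g (Ex.refl _ _) hg (Or.inr ⟨n, h4⟩)
      simp only [f]
      have h2 := h1 true
      cases hbn : b n
      · rw [hbn] at h2
        exact decide_eq_false fun h => absurd (h2.1 h) (by simp)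
      · rw [hbn] at h2
        exact decide_eq_true (h2.2 rfl)
    obtain ⟨G, hG, -, hc, hreq⟩ := exists_generic hα hDn (vd_g0 α)
    obtain ⟨y, hy, h1⟩ := exists_functional hw hc
    obtain ⟨e, he⟩ := (hE' _ _).1 ((hy b hb).trans h1)
    obtain ⟨m, g, -, -, h2, h3⟩ := hreq e
    rcases h3 with ⟨n, v, h4, h5⟩ | ⟨n, h4⟩
    · obtain ⟨k, hk⟩ := he n
      rw [pre_st h2, jn_pre] at h5
      exact h4 (uniq hE h5 hk)
    · obtain ⟨m', hm', h5⟩ := (exists_jn hE (k₀ := m)).1 (he n)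
      exact h4 _ (mem_Xt hG h2 hm') h5
  refine ((countable_XX.biUnion (t := fun X _ => Set.range fun e : ℕ => f e X)
    fun X _ => Set.countable_range _)).mono ?_
  rintro b ⟨α, hα, hb⟩
  obtain ⟨e, X, hX, h⟩ := key α hα b hb
  exact Set.mem_biUnion hX ⟨e, h⟩

/-- The open set coded by the `n`-th column of `y`. -/
def Up (y : ℕ → Bool) (n : ℕ) : Set (ℕ → Bool) :=
  {r | ∃ k, y (Nat.pair n (encode (pre r k))) = true}

theorem isOpen_of_pre {U : Set (ℕ → Bool)} (h : ∀ r ∈ U, ∃ k, ∀ r', pre r' k = pre r k → r' ∈ U) :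
    IsOpen U := by
  rw [isOpen_iff_mem_nhds]
  intro r hr
  obtain ⟨k, hk⟩ := h r hr
  exact Filter.mem_of_superset ((isOpen_pre r k).mem_nhds rfl) fun r' hr' => hk r' hr'

theorem isOpen_Up (y : ℕ → Bool) (n : ℕ) : IsOpen (Up y n) := by
  refine isOpen_of_pre ?_
  rintro r ⟨k, hk⟩
  exact ⟨k, fun r' hr' => ⟨k, by rw [hr']; exact hk⟩⟩

theorem exists_pre_of_isOpen {U : Set (ℕ → Bool)} (hU : IsOpen U) {r : ℕ → Bool} (hr : r ∈ U) :
    ∃ k, ∀ r', pre r' k = pre r k → r' ∈ U := by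
  obtain ⟨I, v, hI, hv⟩ := isOpen_pi_iff.1 hU r hr
  refine ⟨I.sup id + 1, fun r' h' => hv fun i hi => ?_⟩
  have h3 : i < I.sup id + 1 := Nat.lt_succ_of_le (Finset.le_sup (f := id) hi)
  rw [pre_eq_iff.1 h' i h3]
  exact (hI i hi).2

/-- Every sequence of open sets is coded by a real. -/
theorem exists_Up {U : ℕ → Set (ℕ → Bool)} (hU : ∀ n, IsOpen (U n)) : ∃ y, ∀ n, Up y n = U n := by
  classical
  refine ⟨fun m => decide (∃ n, ∃ σ : List Bool, m = Nat.pair n (encode σ) ∧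
    ∀ r', pre r' σ.length = σ → r' ∈ U n), fun n => ?_⟩
  ext r
  constructor
  · rintro ⟨k, hk⟩
    obtain ⟨n', σ, h1, h2⟩ := of_decide_eq_true hk
    obtain ⟨rfl, h4⟩ := Nat.pair_eq_pair.1 h1
    have h3 := encode_injective h4
    subst h3
    exact h2 r (by simp)
  · intro hr
    obtain ⟨k, hk⟩ := exists_pre_of_isOpen (hU n) hr
    exact ⟨k, decide_eq_true ⟨n, pre r k, rfl, fun r' hr' => hk r' (by simpa using hr')⟩⟩

/-- The set attached to a sequence of meager sets. -/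
def KM (M : Ordinal.{0} → Set (ℕ → Bool)) (α : Ordinal.{0}) : Set (ℕ → Bool) :=
  {y | (∀ n, Dense (Up y n)) ∧ ∀ r ∈ M α, ∃ n, r ∉ Up y n}

theorem union_meagre {M : Ordinal.{0} → Set (ℕ → Bool)} (hM : ∀ α < ω₁, IsMeagre (M α))
    (hD : Determined (Att (KM M))) : IsMeagre {r | ∃ α < ω₁, r ∈ M α} := by
  classical
  have := polish
  obtain ⟨E, hE, hE'⟩ := exists_fam
  obtain ⟨w, hw⟩ := select (K := KM M) (fun α hα => by
    obtain ⟨t, ht, h1, h2⟩ := mem_residual.1 (hM α hα)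
    obtain ⟨U, hU, rfl⟩ := isGδ_iff_eq_iInter_nat.1 h1
    obtain ⟨y, hy⟩ := exists_Up hU
    refine ⟨y, fun n => ?_, fun r hr => ?_⟩
    · rw [hy]
      exact h2.mono (Set.iInter_subset _ _)
    · by_contra hcon
      push Not at hcon
      refine ht (Set.mem_iInter.2 fun n => ?_) hr
      rw [← hy n]
      exact hcon n) hD
  let O : ℕ → ℕ → Set (List Bool) → Set (ℕ → Bool) := fun e n X =>
    {r | ∃ k, ∃ d ∈ X, E e (jn w d) (Nat.pair n (encode (pre r k))) true}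
  have hO : ∀ e n X, IsOpen (O e n X) := by
    intro e n X
    refine isOpen_of_pre ?_
    rintro r ⟨k, d, hd, h⟩
    exact ⟨k, fun r' hr' => ⟨k, d, hd, by rw [hr']; exact h⟩⟩
  have hres : {r | ∀ e n, ∀ X ∈ XX, Dense (O e n X) → r ∈ O e n X} ∈ residual (ℕ → Bool) := by
    have h1 : ∀ᶠ r in residual (ℕ → Bool), ∀ X ∈ XX, ∀ e n, Dense (O e n X) → r ∈ O e n X := by
      rw [eventually_countable_ball countable_XX]
      intro X _
      rw [eventually_countable_forall]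
      intro e
      rw [eventually_countable_forall]
      intro n
      by_cases h : Dense (O e n X)
      · filter_upwards [residual_of_dense_open (hO e n X) h] with r hr _
        exact hr
      · exact Filter.Eventually.of_forall fun r h' => absurd h' h
    filter_upwards [h1] with r hr e n X hX
    exact hr X hX e n
  refine Filter.mem_of_superset hres ?_
  rintro r hr ⟨α, hα, hrα⟩
  rw [Set.mem_ofPred_eq] at hr
  let D : ℕ × ℕ → ℕ → (ℕ → Option Ordinal.{0}) → Prop := fun p m g =>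
    (∃ k, E p.1 (jn w (pre (st g) m)) (Nat.pair p.2 (encode (pre r k))) true) ∨
      ¬ Dense (O p.1 p.2 (Xt α m g))
  have hDn : ∀ p, Dn α (D p) := by
    intro p
    refine Dn.of_pos fun m g hm hg => ?_
    by_cases h : Dense (O p.1 p.2 (Xt α m g))
    · obtain ⟨k, d, ⟨m', g', h1, h2, rfl⟩, h3⟩ := hr p.1 p.2 _ ⟨α, m, g, hm, hg, rfl⟩ h
      exact ⟨m', g', h1, h2, Or.inl ⟨k, h3⟩⟩
    · exact ⟨m, g, Ex.refl _ _, hg, Or.inr h⟩
  obtain ⟨G, hG, -, hc, hreq⟩ := exists_generic hα hDn (vd_g0 α)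
  obtain ⟨y, ⟨hy1, hy2⟩, h1⟩ := exists_functional hw hc
  obtain ⟨e, he⟩ := (hE' _ _).1 h1
  obtain ⟨n, hn⟩ := hy2 r hrα
  obtain ⟨m, g, -, -, h2, h3⟩ := hreq (e, n)
  rcases h3 with ⟨k, h4⟩ | h4
  · simp only at h4
    rw [pre_st h2, jn_pre] at h4
    obtain ⟨k', hk'⟩ := he (Nat.pair n (encode (pre r k)))
    exact hn ⟨k, (uniq hE h4 hk').symm⟩
  · refine h4 ((hy1 n).mono ?_)
    rintro r' ⟨k, hk⟩
    have h5 := he (Nat.pair n (encode (pre r' k)))
    rw [hk] at h5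
    obtain ⟨m', hm', h6⟩ := (exists_jn hE (k₀ := m)).1 h5
    exact ⟨k, _, mem_Xt hG h2 hm', h6⟩

/-- The set attached to a sequence of bounded sets. -/
def KD (B : Ordinal.{0} → Set (ℕ → ℕ)) (α : Ordinal.{0}) : Set (ℕ → Bool) :=
  {y | (∀ n, ∃ k, y (Nat.pair n k) = true) ∧
    ∀ b ∈ B α, ∀ᶠ n in atTop, ∀ k, y (Nat.pair n k) = true → b n ≤ k}

theorem union_bounded {B : Ordinal.{0} → Set (ℕ → ℕ)}
    (hB : ∀ α < ω₁, ∃ h : ℕ → ℕ, ∀ b ∈ B α, ∀ᶠ n in atTop, b n ≤ h n)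
    (hD : Determined (Att (KD B))) :
    ∃ h : ℕ → ℕ, ∀ α < ω₁, ∀ b ∈ B α, ∀ᶠ n in atTop, b n ≤ h n := by
  classical
  obtain ⟨E, hE, hE'⟩ := exists_fam
  obtain ⟨w, hw⟩ := select (K := KD B) (fun α hα => by
    obtain ⟨h, hh⟩ := hB α hα
    refine ⟨fun m => decide (m.unpair.2 = h m.unpair.1), fun n => ⟨h n, by simp⟩, fun b hb => ?_⟩
    filter_upwards [hh b hb] with n hn k hk
    simp only [Nat.unpair_pair, decide_eq_true_eq] at hk
    omega) hD
  let f : ℕ → Set (List Bool) → ℕ → ℕ := fun e X n =>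
    sInf {k | ∃ d ∈ X, E e (jn w d) (Nat.pair n k) true}
  have key : ∀ α < ω₁, ∀ b ∈ B α, ∃ e, ∃ X ∈ XX, ∀ᶠ n in atTop, b n ≤ f e X n := by
    intro α hα b hb
    by_contra hcon
    push Not at hcon
    let D : ℕ × ℕ → ℕ → (ℕ → Option Ordinal.{0}) → Prop := fun p m g =>
      (∃ n ≥ p.2, ∃ k < b n, E p.1 (jn w (pre (st g) m)) (Nat.pair n k) true) ∨
        ∃ n, ∀ k, ∀ d ∈ Xt α m g, ¬ E p.1 (jn w d) (Nat.pair n k) true
    have hDn : ∀ p, Dn α (D p) := by
      intro p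
      refine Dn.of_pos fun m g hm hg => ?_
      by_cases h : ∃ n, ∀ k, ∀ d ∈ Xt α m g, ¬ E p.1 (jn w d) (Nat.pair n k) true
      · exact ⟨m, g, Ex.refl _ _, hg, Or.inr h⟩
      · push Not at h
        have h1 := hcon p.1 (Xt α m g) ⟨α, m, g, hm, hg, rfl⟩
        obtain ⟨n, hn, h2⟩ := (Filter.frequently_atTop.1 h1) p.2
        obtain ⟨k, hk⟩ := h n
        have h3 : f p.1 (Xt α m g) n ∈ {k | ∃ d ∈ Xt α m g, E p.1 (jn w d) (Nat.pair n k) true} :=
          Nat.sInf_mem ⟨k, hk⟩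
        obtain ⟨d, ⟨m', g', h4, h5, rfl⟩, h6⟩ := h3
        exact ⟨m', g', h4, h5, Or.inl ⟨n, hn, _, h2, h6⟩⟩
    obtain ⟨G, hG, -, hc, hreq⟩ := exists_generic hα hDn (vd_g0 α)
    obtain ⟨y, ⟨hy1, hy2⟩, h1⟩ := exists_functional hw hc
    obtain ⟨e, he⟩ := (hE' _ _).1 h1
    obtain ⟨N, hN⟩ := eventually_atTop.1 (hy2 b hb)
    obtain ⟨m, g, -, -, h2, h3⟩ := hreq (e, N)
    rcases h3 with ⟨n, hn, k, hk, h4⟩ | ⟨n, h4⟩
    · simp only at h4
      rw [pre_st h2, jn_pre] at h4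
      obtain ⟨k', hk'⟩ := he (Nat.pair n k)
      have h5 := hN n hn k (uniq hE h4 hk').symm
      omega
    · obtain ⟨k, hk⟩ := hy1 n
      have h5 := he (Nat.pair n k)
      rw [hk] at h5
      obtain ⟨m', hm', h6⟩ := (exists_jn hE (k₀ := m)).1 h5
      exact h4 k _ (mem_Xt hG h2 hm') h6
  -- a bound for countably many functions
  have hcF : (⋃ X ∈ XX, Set.range fun e : ℕ => f e X).Countable :=
    countable_XX.biUnion fun X _ => Set.countable_range _
  rcases (⋃ X ∈ XX, Set.range fun e : ℕ => f e X).eq_empty_or_nonempty with h0 | h0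
  · refine ⟨fun _ => 0, fun α hα b hb => ?_⟩
    obtain ⟨e, X, hX, -⟩ := key α hα b hb
    have h1 : f e X ∈ ⋃ X ∈ XX, Set.range fun e : ℕ => f e X := Set.mem_biUnion hX ⟨e, rfl⟩
    rw [h0] at h1
    exact h1.elim
  · obtain ⟨u, hu⟩ := hcF.exists_eq_range h0
    refine ⟨fun n => (Finset.range (n + 1)).sup fun i => u i n, fun α hα b hb => ?_⟩
    obtain ⟨e, X, hX, h2⟩ := key α hα b hb
    have h1 : f e X ∈ ⋃ X ∈ XX, Set.range fun e : ℕ => f e X := Set.mem_biUnion hX ⟨e, rfl⟩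
    rw [hu] at h1
    obtain ⟨i, hi⟩ := h1
    filter_upwards [h2, eventually_ge_atTop i] with n hn hin
    rw [← hi] at hn
    exact hn.trans (Finset.le_sup (f := fun i => u i n) (Finset.mem_range.2 (by omega)))

end Pool.Agent.N480.OS
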