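import Pool.Agent.N480.OS.Col

set_option autoImplicit false

/-! Forcing with presentations of ordinals. -/

namespace Pool.Agent.N480.OS

open Pool.Agent.Helper227 Pool.Agent.N620.WP
open MeasureTheory Ordinal Cardinal Filter Topology Encodable
open Pool.Agent.H685R3 (TuringInvariant Determined)
open Pool.Agent.Y588.PD (Fam RLe exists_fam)

variable {α α' : Ordinal.{0}} {g g' : ℕ → Option Ordinal.{0}} {m m' : ℕ}

/-- `G` meets `D`. -/
def Mt (α : Ordinal.{0}) (D : ℕ → (ℕ → Option Ordinal.{0}) → Prop)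
    (G : ℕ → Option Ordinal.{0}) : Prop :=
  ∃ m g, Vd α g m ∧ (∀ n < m, G n = g n) ∧ D m g

/-- All sufficiently generic presentations of `α` extending the condition `(m, g)` are in `A`. -/
def Fo (α : Ordinal.{0}) (m : ℕ) (g : ℕ → Option Ordinal.{0}) (A : Set (ℕ → Bool)) : Prop :=
  ∃ 𝒟 : Set (ℕ → (ℕ → Option Ordinal.{0}) → Prop), 𝒟.Countable ∧ (∀ D ∈ 𝒟, Dn α D) ∧
    ∀ G, (∀ k, Vd α G k) → (∀ n < m, G n = g n) → (∀ D ∈ 𝒟, Mt α D G) → st G ∈ A

theorem Fo.mono {A B : Set (ℕ → Bool)} (h : Fo α m g A) (hAB : A ⊆ B) : Fo α m g B := by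
  obtain ⟨𝒟, h1, h2, h3⟩ := h
  exact ⟨𝒟, h1, h2, fun G hG hn hM => hAB (h3 G hG hn hM)⟩

theorem Fo.ext {A : Set (ℕ → Bool)} (h : Fo α m g A) (he : Ex m g m' g') : Fo α m' g' A := by
  obtain ⟨𝒟, h1, h2, h3⟩ := h
  refine ⟨𝒟, h1, h2, fun G hG hn hM => h3 G hG (fun n hnm => ?_) hM⟩
  rw [hn n (hnm.trans_le he.1), he.2 n hnm]

theorem Fo.univ : Fo α m g Set.univ := ⟨∅, Set.countable_empty, by simp, fun _ _ _ _ => trivial⟩

theorem Fo.iInter {ι : Type*} [Countable ι] {A : ι → Set (ℕ → Bool)} (h : ∀ i, Fo α m g (A i)) :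
    Fo α m g (⋂ i, A i) := by
  choose 𝒟 h1 h2 h3 using h
  refine ⟨⋃ i, 𝒟 i, Set.countable_iUnion h1, ?_, fun G hG hn hM => Set.mem_iInter.2 fun i =>
    h3 i G hG hn fun D hD => hM D (Set.mem_iUnion.2 ⟨i, hD⟩)⟩
  intro D hD
  obtain ⟨i, hi⟩ := Set.mem_iUnion.1 hD
  exact h2 i D hi

theorem Fo.inter {A B : Set (ℕ → Bool)} (h : Fo α m g A) (h' : Fo α m g B) :
    Fo α m g (A ∩ B) := by
  have h1 : Fo α m g (⋂ b : Bool, cond b A B) := Fo.iInter fun b => by
    cases b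
    · exact h'
    · exact h
  refine h1.mono fun x hx => ?_
  rw [Set.mem_iInter] at hx
  exact ⟨hx true, hx false⟩

theorem Fo.false (hα : α < ω₁) (hg : Vd α g m) : ¬ Fo α m g ∅ := by
  rintro ⟨𝒟, h1, h2, h3⟩
  have := h1.to_subtype
  obtain ⟨G, h4, h5, -, h6⟩ := exists_generic (ι := 𝒟) hα (D := fun D => D.1)
    (fun D => h2 D.1 D.2) hg
  refine h3 G h4 h5 fun D hD => ?_
  obtain ⟨m', g', -, h7, h8, h9⟩ := h6 ⟨D, hD⟩
  exact ⟨m', g', h7, h8, h9⟩

theorem tag_le (hV : Vd α g m) {n : ℕ} (hn : n < m) {t : Ordinal.{0}} (ht : g n = some t) :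
    t ≤ α := by
  induction n using Nat.strong_induction_on generalizing t with
  | _ n ih =>
    cases n with
    | zero =>
      rw [hV.1] at ht
      cases ht
      exact le_rfl
    | succ k =>
      obtain ⟨t1, h2, h3⟩ := hV.2 k hn t ht
      have h4 := Nat.unpair_left_le k
      exact h3.le.trans (ih _ (by omega) (by omega) h2)

/-- The canonical conditions. -/
def CC (α : Ordinal.{0}) : Set (ℕ × (ℕ → Option Ordinal.{0})) :=
  {c | ∃ m g, 0 < m ∧ Vd α g m ∧ c = (m, ct m g)}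

theorem countable_CC (hα : α < ω₁) : (CC α).Countable := by
  have := countable_Iic hα
  let F : List (Option {β : Ordinal.{0} // β ≤ α}) → ℕ × (ℕ → Option Ordinal.{0}) := fun l =>
    (l.length, fun n => (l.getD n none).map (·.1))
  refine (Set.countable_range F).mono ?_
  rintro c ⟨m, g, hm, hg, rfl⟩
  have h1 : ∀ n < m, ∃ o : Option {β : Ordinal.{0} // β ≤ α}, o.map (·.1) = g n := by
    intro n hn
    rcases h : g n with _ | t
    · exact ⟨none, rfl⟩
    · exact ⟨some ⟨t, tag_le hg hn h⟩, rfl⟩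
  classical
  let o : ℕ → Option {β : Ordinal.{0} // β ≤ α} := fun n =>
    if h : n < m then Classical.choose (h1 n h) else none
  refine ⟨(List.range m).map o, ?_⟩
  simp only [F, List.length_map, List.length_range]
  refine Prod.ext rfl (funext fun n => ?_)
  simp only [ct]
  by_cases hn : n < m
  · rw [if_pos (Or.inr hn), List.getD_eq_getElem _ _ (by simpa using hn)]
    simp only [List.getElem_map, List.getElem_range, o]
    rw [dif_pos hn]
    exact Classical.choose_spec (h1 n hn)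
  · rw [if_neg (by omega), List.getD_eq_default _ _ (by simpa using hn)]
    rfl

theorem ex_ct : Ex m g m (ct m g) := ⟨le_rfl, fun j hj => by rw [ct, if_pos (Or.inr hj)]⟩

theorem ex_ct' : Ex m (ct m g) m g := ⟨le_rfl, fun j hj => by rw [ct, if_pos (Or.inr hj)]⟩

theorem Fo.dense (hα : α < ω₁) {A : Set (ℕ → Bool)} (hg : Vd α g m)
    (h : ∀ m' g', Ex m g m' g' → Vd α g' m' →
      ∃ m'' g'', Ex m' g' m'' g'' ∧ Vd α g'' m'' ∧ Fo α m'' g'' A) : Fo α m g A := by
  classical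
  let C : Set (ℕ × (ℕ → Option Ordinal.{0})) := {c | c ∈ CC α ∧ Fo α c.1 c.2 A}
  have hC : C.Countable := (countable_CC hα).mono fun c hc => hc.1
  have h1 : ∀ c : C, ∃ 𝒟 : Set (ℕ → (ℕ → Option Ordinal.{0}) → Prop), 𝒟.Countable ∧
      (∀ D ∈ 𝒟, Dn α D) ∧ ∀ G, (∀ k, Vd α G k) → (∀ n < c.1.1, G n = c.1.2 n) →
        (∀ D ∈ 𝒟, Mt α D G) → st G ∈ A := fun c => c.2.2
  choose 𝒟 h2 h3 h4 using h1
  have := hC.to_subtype
  let D₀ : ℕ → (ℕ → Option Ordinal.{0}) → Prop := fun m' g' =>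
    (0 < m' ∧ Fo α m' g' A) ∨ ∃ n, n < m ∧ n < m' ∧ g' n ≠ g n
  refine ⟨insert D₀ (⋃ c, 𝒟 c), (Set.countable_iUnion h2).insert _, ?_, ?_⟩
  · rintro D (rfl | hD)
    · intro m1 g1 hg1
      by_cases hc : ∃ n, n < m ∧ n < m1 ∧ g1 n ≠ g n
      · exact ⟨m1, g1, Ex.refl _ _, hg1, Or.inr hc⟩
      · push Not at hc
        -- a common extension
        obtain ⟨m2, g2, h5, h6, h7⟩ : ∃ m2 g2, Ex m1 g1 m2 g2 ∧ Ex m g m2 g2 ∧ Vd α g2 m2 := by
          rcases le_total m m1 with h5 | h5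
          · exact ⟨m1, g1, Ex.refl _ _, ⟨h5, fun n hn => hc n hn (by omega)⟩, hg1⟩
          · exact ⟨m, g, ⟨h5, fun n hn => (hc n (by omega) hn).symm⟩, Ex.refl _ _, hg⟩
        have h8 : Ex m2 g2 (m2 + 1) (ct m2 g2) :=
          ⟨Nat.le_succ _, fun j hj => by rw [ct, if_pos (Or.inr hj)]⟩
        obtain ⟨m3, g3, h9, h10, h11⟩ := h (m2 + 1) (ct m2 g2) (h6.trans h8) (h7.ct _)
        exact ⟨m3, g3, h5.trans (h8.trans h9), h10, Or.inl ⟨by have := h9.1; omega, h11⟩⟩
    · obtain ⟨c, hc⟩ := Set.mem_iUnion.1 hD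
      exact h3 c D hc
  · intro G hG hn hM
    obtain ⟨m1, g1, h5, h6, h7⟩ := hM D₀ (Or.inl rfl)
    rcases h7 with ⟨h7, h8⟩ | ⟨n, h7, h8, h9⟩
    · let c : C := ⟨(m1, ct m1 g1), ⟨m1, g1, h7, h5, rfl⟩, h8.ext ex_ct⟩
      refine h4 c G hG (fun n hn' => ?_) fun D hD => hM D (Or.inr (Set.mem_iUnion.2 ⟨c, hD⟩))
      have h9 : ct m1 g1 n = g1 n := by rw [ct, if_pos (Or.inr hn')]
      rw [h6 n hn']
      exact h9.symm
    · exact absurd (by rw [← h6 n h8, hn n h7]) h9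

/-- `A` is decided densely. -/
def Dc (α : Ordinal.{0}) (A : Set (ℕ → Bool)) : Prop :=
  ∀ m g, Vd α g m → ∃ m' g', Ex m g m' g' ∧ Vd α g' m' ∧ (Fo α m' g' A ∨ Fo α m' g' Aᶜ)

theorem Fo.compl_iff (hα : α < ω₁) {A : Set (ℕ → Bool)} (hA : Dc α A) (hg : Vd α g m) :
    Fo α m g Aᶜ ↔ ∀ m' g', Ex m g m' g' → Vd α g' m' → ¬ Fo α m' g' A := by
  constructor
  · intro h m' g' h1 h2 h3
    have h4 := h3.inter (h.ext h1)
    rw [Set.inter_compl_self] at h4
    exact Fo.false hα h2 h4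
  · intro h
    refine Fo.dense hα hg fun m' g' h1 h2 => ?_
    obtain ⟨m'', g'', h3, h4, h5 | h5⟩ := hA m' g' h2
    · exact absurd h5 (h _ _ (h1.trans h3) h4)
    · exact ⟨m'', g'', h3, h4, h5⟩

theorem Dc.compl {A : Set (ℕ → Bool)} (hA : Dc α A) : Dc α Aᶜ := by
  intro m g hg
  obtain ⟨m', g', h1, h2, h3⟩ := hA m g hg
  refine ⟨m', g', h1, h2, ?_⟩
  rw [compl_compl]
  exact h3.symm

theorem Dc.iUnion (hα : α < ω₁) {A : ℕ → Set (ℕ → Bool)} (hA : ∀ n, Dc α (A n)) :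
    Dc α (⋃ n, A n) := by
  intro m g hg
  by_cases h : ∃ m' g', Ex m g m' g' ∧ Vd α g' m' ∧ ∃ n, Fo α m' g' (A n)
  · obtain ⟨m', g', h1, h2, n, h3⟩ := h
    exact ⟨m', g', h1, h2, Or.inl (h3.mono (Set.subset_iUnion A n))⟩
  · push Not at h
    refine ⟨m, g, Ex.refl _ _, hg, Or.inr ?_⟩
    rw [Set.compl_iUnion]
    exact Fo.iInter fun n => (Fo.compl_iff hα (hA n) hg).2 fun m' g' h1 h2 => h m' g' h1 h2 n

theorem Fo.iUnion_iff (hα : α < ω₁) {A : ℕ → Set (ℕ → Bool)} (hA : ∀ n, Dc α (A n))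
    (hg : Vd α g m) : Fo α m g (⋃ n, A n) ↔ ∀ m' g', Ex m g m' g' → Vd α g' m' →
      ∃ m'' g'', Ex m' g' m'' g'' ∧ Vd α g'' m'' ∧ ∃ n, Fo α m'' g'' (A n) := by
  constructor
  · intro h m' g' h1 h2
    by_contra hcon
    push Not at hcon
    have h3 : Fo α m' g' (⋂ n, (A n)ᶜ) := Fo.iInter fun n =>
      (Fo.compl_iff hα (hA n) h2).2 fun m'' g'' h3 h4 => hcon m'' g'' h3 h4 n
    have h4 := (h.ext h1).inter h3
    rw [← Set.compl_iUnion, Set.inter_compl_self] at h4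
    exact Fo.false hα h2 h4
  · intro h
    refine Fo.dense hα hg fun m' g' h1 h2 => ?_
    obtain ⟨m'', g'', h3, h4, n, h5⟩ := h m' g' h1 h2
    exact ⟨m'', g'', h3, h4, h5.mono (Set.subset_iUnion A n)⟩

theorem Fo.bit_iff (hα : α < ω₁) {i : ℕ} :
    Fo α m g {s | s i = true} ↔ ∀ m' g', Ex m g m' g' → Vd α g' m' → i < m' → st g' i = true := by
  constructor
  · intro h m' g' h1 h2 h3
    obtain ⟨𝒟, h4, h5, h6⟩ := h.ext h1
    have := h4.to_subtype
    obtain ⟨G, h7, h8, -, h9⟩ := exists_generic (ι := 𝒟) hα (D := fun D => D.1)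
      (fun D => h5 D.1 D.2) h2
    have h10 := h6 G h7 h8 fun D hD => by
      obtain ⟨m'', g'', -, h7, h8, h9⟩ := h9 ⟨D, hD⟩
      exact ⟨m'', g'', h7, h8, h9⟩
    have h11 : st G i = true := h10
    rw [← h11]
    unfold st
    rw [h8 i h3]
  · intro h
    refine ⟨∅, Set.countable_empty, by simp, fun G hG hn _ => ?_⟩
    exact h (max m (i + 1)) G ⟨le_max_left _ _, hn⟩ (hG _) (by omega)

theorem Dc.bit {i : ℕ} : Dc α {s | s i = true} := by
  intro m g hg
  have h1 : Ex m g (max m (i + 1)) (OS.ct m g) :=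
    ⟨le_max_left _ _, fun j hj => by rw [OS.ct, if_pos (Or.inr hj)]⟩
  refine ⟨_, _, h1, hg.ct _, ?_⟩
  cases h : st (OS.ct m g) i
  · refine Or.inr ⟨∅, Set.countable_empty, by simp, fun G hG hn _ => ?_⟩
    intro hG'
    have h2 : st G i = true := hG'
    unfold st at h h2
    rw [hn i (by omega)] at h2
    rw [h] at h2
    cases h2
  · refine Or.inl ⟨∅, Set.countable_empty, by simp, fun G hG hn _ => ?_⟩
    change st G i = true
    unfold st at h ⊢
    rw [hn i (by omega)]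
    exact h

/-! ### Equivalence of conditions -/

/-- The conditions `(m, g)` and `(m, g')` agree up to `ω * β`. -/
def Ev (β : Ordinal.{0}) (m : ℕ) (g g' : ℕ → Option Ordinal.{0}) : Prop :=
  ∀ n, n = 0 ∨ n < m → (g n).map (fun t => min t (ω * β)) = (g' n).map fun t => min t (ω * β)

theorem Ev.symm {β : Ordinal.{0}} (h : Ev β m g g') : Ev β m g' g := fun n hn => (h n hn).symm

theorem Ev.mono {β γ : Ordinal.{0}} (h : Ev β m g g') (hγ : γ ≤ β) : Ev γ m g g' := by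
  intro n hn
  have h1 := congrArg (Option.map fun t => min t (ω * γ)) (h n hn)
  rw [Option.map_map, Option.map_map] at h1
  have h2 : ((fun t => min t (ω * γ)) ∘ fun t => min t (ω * β)) = fun t => min t (ω * γ) := by
    funext t
    simp only [Function.comp]
    rw [min_assoc, min_eq_right (a := ω * β)]
    exact mul_le_mul_right hγ _
  rw [h2] at h1
  exact h1

theorem Ev.st {β : Ordinal.{0}} (h : Ev β m g g') {n : ℕ} (hn : n < m) : st g n = st g' n := by
  have h1 := congrArg Option.isSome (h n (Or.inr hn))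
  simpa [OS.st] using h1

theorem Ev.extend {β γ : Ordinal.{0}} (hγ : γ < β) (h : Ev β m g g') (hg : Vd α g m)
    (hg' : Vd α' g' m) {m1 : ℕ} {f : ℕ → Option Ordinal.{0}} (hf : Ex m g m1 f)
    (hfv : Vd α f m1) : ∃ f', Ex m g' m1 f' ∧ Vd α' f' m1 ∧ Ev γ m1 f f' := by
  let f' : ℕ → Option Ordinal.{0} := fun n =>
    if n = 0 ∨ n < m then g' n else (f n).map fun t => min t (ω * γ + ((m1 - n : ℕ) : Ordinal.{0}))
  have hfg : ∀ n, n = 0 ∨ n < m → f n = g n := by
    rintro n (rfl | hn)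
    · rw [hfv.1, hg.1]
    · exact hf.2 n hn
  refine ⟨f', ⟨hf.1, fun n hn => ?_⟩, ⟨?_, fun k hk u hu => ?_⟩, fun n hn => ?_⟩
  · simp only [f']
    rw [if_pos (Or.inr hn)]
  · simp only [f']
    rw [if_pos (Or.inl trivial)]
    exact hg'.1
  · have hq := Nat.unpair_left_le k
    simp only [f'] at hu ⊢
    by_cases hkm : k + 1 < m
    · rw [if_pos (Or.inr hkm)] at hu
      rw [if_pos (Or.inr (by omega))]
      exact hg'.2 k hkm u hu
    · rw [if_neg (by omega)] at hu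
      obtain ⟨t, ht, rfl⟩ := Option.map_eq_some_iff.1 hu
      obtain ⟨t', h3, h4⟩ := hfv.2 k hk t ht
      by_cases hqm : k.unpair.1 = 0 ∨ k.unpair.1 < m
      · rw [if_pos hqm]
        rw [hfg _ hqm] at h3
        have h5 := h _ hqm
        rw [h3] at h5
        obtain ⟨t'', h6, h7⟩ := Option.map_eq_some_iff.1 h5.symm
        refine ⟨t'', h6, ?_⟩
        beta_reduce at h7
        rcases lt_or_ge t'' (ω * β) with h8 | h8
        · rw [min_eq_left h8.le] at h7
          have h9 : t' = t'' := by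
            rcases lt_or_ge t' (ω * β) with h9 | h9
            · rw [min_eq_left h9.le] at h7
              exact h7.symm
            · rw [min_eq_right h9] at h7
              exact absurd h7 h8.ne
          rw [← h9]
          exact (min_le_left _ _).trans_lt h4
        · refine (min_le_right _ _).trans_lt (lt_of_lt_of_le ?_ h8)
          have h9 : ω * γ + ((m1 - (k + 1) : ℕ) : Ordinal.{0}) < ω * γ + ω :=
            add_lt_add_right (Ordinal.natCast_lt_omega0 _) _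
          refine h9.trans_le ?_
          rw [← Ordinal.mul_succ]
          exact mul_le_mul_right (Order.succ_le_iff.2 hγ) _
      · rw [if_neg hqm, h3]
        refine ⟨_, rfl, ?_⟩
        refine lt_min ((min_le_left _ _).trans_lt h4) ((min_le_right _ _).trans_lt ?_)
        refine add_lt_add_right ?_ _
        exact_mod_cast (by omega : m1 - (k + 1) < m1 - k.unpair.1)
  · simp only [f']
    by_cases hnm : n = 0 ∨ n < m
    · rw [if_pos hnm, hfg n hnm]
      exact (h.mono hγ.le) n hnm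
    · rw [if_neg hnm, Option.map_map]
      congr 1
      funext t
      simp only [Function.comp]
      rw [min_assoc, min_eq_right (a := ω * γ + _)]
      exact le_self_add

end Pool.Agent.N480.OS
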