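import Pool.Agent.N480.OS.Bnd

set_option autoImplicit false

/-! Fusion of analytic sets which are cofinal in the Turing degrees. -/

namespace Pool.Agent.N480.OS

open Pool.Agent.Helper227 Pool.Agent.N620.WP
open MeasureTheory Ordinal Cardinal Filter Topology
open Pool.Agent.Y588.PD (Fam RLe exists_fam)

/-- `S` has members in cofinally many Turing degrees. -/
def Big (S : Set (ℕ → Bool)) : Prop := ∀ z, ∃ x ∈ S, TLe z x

theorem Big.mono {S T : Set (ℕ → Bool)} (h : Big S) (hT : S ⊆ T) : Big T := fun z => by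
  obtain ⟨x, hx, hz⟩ := h z
  exact ⟨x, hT hx, hz⟩

theorem Big.iUnion {ι : Type*} [Countable ι] {S : ι → Set (ℕ → Bool)} (h : Big (⋃ i, S i)) :
    ∃ i, Big (S i) := by
  by_contra hcon
  push Not at hcon
  unfold Big at hcon
  push Not at hcon
  choose z hz using hcon
  rcases isEmpty_or_nonempty ι with hι | hι
  · obtain ⟨x, hx, -⟩ := h fun _ => false
    obtain ⟨i, -⟩ := Set.mem_iUnion.1 hx
    exact hι.false i
  obtain ⟨e, he⟩ := exists_surjective_nat ι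
  obtain ⟨w, hw⟩ := join_cone fun n => z (e n)
  obtain ⟨x, hx, hwx⟩ := h w
  obtain ⟨i, hi⟩ := Set.mem_iUnion.1 hx
  obtain ⟨n, rfl⟩ := he i
  exact hz _ x hi ((hw n).trans hwx)

theorem Big.cone {S : Set (ℕ → Bool)} (h : Big S) (z : ℕ → Bool) : Big {x | x ∈ S ∧ TLe z x} :=
  fun z' => by
  obtain ⟨x, hx, h'⟩ := h (join z z')
  exact ⟨x, ⟨hx, (tLe_join_left z z').trans h'⟩, (tLe_join_right z z').trans h'⟩

/-- The space of points with witnesses. -/
abbrev Wt : Type := (ℕ → Bool) × (ℕ → ℕ → ℕ)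

/-- The first `n` coordinates of `p`. -/
def ph (n : ℕ) (p : Wt) : (Fin n → Bool) × (Fin (n + 1) → Fin n → ℕ) :=
  (fun k => p.1 k, fun i k => p.2 i k)

theorem continuous_ph (n : ℕ) : Continuous (ph n) := by
  unfold ph
  fun_prop

/-- Closed sets depending only on the first `n` witnesses, with big projection. -/
structure St (n : ℕ) (F : Set Wt) : Prop where
  closed : IsClosed F
  dep : ∀ (x : ℕ → Bool) (b b' : ℕ → ℕ → ℕ), (∀ i < n, b i = b' i) → (x, b) ∈ F → (x, b') ∈ F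
  big : Big (Prod.fst '' F)

theorem St.step {n : ℕ} {F : Set Wt} (h : St n F) {A : Set (ℕ → Bool)} (hA : AnalyticSet A)
    (hb : Big (A ∩ Prod.fst '' F)) :
    ∃ F', St (n + 1) F' ∧ F' ⊆ F ∧ Prod.fst '' F' ⊆ A ∧ ∀ p ∈ F', ∀ q ∈ F', ph n p = ph n q := by
  rw [AnalyticSet] at hA
  rcases hA with rfl | ⟨f, hf, rfl⟩
  · obtain ⟨x, hx, -⟩ := hb fun _ => false
    exact hx.1.elim
  let F1 : Set Wt := F ∩ {p | f (p.2 n) = p.1}
  have hF1 : IsClosed F1 := by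
    refine h.closed.inter (isClosed_eq ?_ continuous_fst)
    exact hf.comp ((continuous_apply n).comp continuous_snd)
  have hfst : Set.range f ∩ Prod.fst '' F ⊆ Prod.fst '' F1 := by
    rintro x ⟨⟨a, ha⟩, ⟨x', b⟩, hb, rfl⟩
    refine ⟨(x', fun i => if i = n then a else b i), ⟨?_, ?_⟩, rfl⟩
    · refine h.dep x' b _ (fun i hi => ?_) hb
      rw [if_neg (by omega)]
    · simpa using ha
  have hU : Prod.fst '' F1 ⊆ ⋃ s, Prod.fst '' (F1 ∩ ph n ⁻¹' {s}) := by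
    rintro x ⟨p, hp, rfl⟩
    exact Set.mem_iUnion.2 ⟨ph n p, p, ⟨hp, rfl⟩, rfl⟩
  obtain ⟨s, hs⟩ := ((hb.mono hfst).mono hU).iUnion
  refine ⟨F1 ∩ ph n ⁻¹' {s}, ⟨?_, ?_, hs⟩, fun p hp => hp.1.1, ?_, ?_⟩
  · exact hF1.inter ((isClosed_singleton).preimage (continuous_ph n))
  · rintro x b b' hbb ⟨⟨h1, h2⟩, h3⟩
    refine ⟨⟨h.dep x b b' (fun i hi => hbb i (by omega)) h1, ?_⟩, ?_⟩
    · simp only [Set.mem_ofPred_eq] at h2 ⊢
      rw [← hbb n (by omega)]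
      exact h2
    · simp only [Set.mem_preimage, Set.mem_singleton_iff] at h3 ⊢
      rw [← h3]
      unfold ph
      refine Prod.ext rfl (funext fun i => funext fun k => ?_)
      simp only
      rw [hbb i.1 i.2]
  · rintro x ⟨p, hp, rfl⟩
    exact ⟨_, hp.1.2⟩
  · intro p hp q hq
    rw [hp.2, hq.2]

theorem exists_limit {F : ℕ → Set Wt} {n : ℕ → ℕ} (hn : ∀ k, k ≤ n k) (hc : ∀ k, IsClosed (F k))
    (hne : ∀ k, (F k).Nonempty) (hs : ∀ k, F (k + 1) ⊆ F k)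
    (hp : ∀ k, ∀ p ∈ F (k + 1), ∀ q ∈ F (k + 1), ph (n k) p = ph (n k) q) :
    ∃ p, ∀ k, p ∈ F k := by
  choose P hP using hne
  have hanti : ∀ k m, k ≤ m → F m ⊆ F k := fun k m h => antitone_nat_of_succ_le hs h
  have key : ∀ k m, k + 1 ≤ m → ph (n k) (P m) = ph (n k) (P (k + 1)) := fun k m h =>
    hp k _ (hanti _ _ h (hP m)) _ (hP (k + 1))
  let x : ℕ → Bool := fun j => (P (j + 2)).1 j
  let b : ℕ → ℕ → ℕ := fun i j => (P (max i j + 2)).2 i j
  have h1 : ∀ j m, j + 2 ≤ m → (P m).1 j = x j := by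
    intro j m hm
    have h2 := key (j + 1) m hm
    have h3 := hn (j + 1)
    exact congrFun (congrArg Prod.fst h2) ⟨j, by omega⟩
  have h2 : ∀ i j m, max i j + 2 ≤ m → (P m).2 i j = b i j := by
    intro i j m hm
    have h2 := key (max i j + 1) m hm
    have h3 := hn (max i j + 1)
    exact congrFun (congrFun (congrArg Prod.snd h2) ⟨i, by omega⟩) ⟨j, by omega⟩
  have hlim : Tendsto P atTop (𝓝 (x, b)) := by
    rw [nhds_prod_eq]
    refine Tendsto.prodMk (f := atTop) (m₁ := fun m => (P m).1) (m₂ := fun m => (P m).2) ?_ ?_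
    · refine tendsto_pi_nhds.2 fun j => ?_
      refine tendsto_const_nhds.congr' ?_
      filter_upwards [eventually_ge_atTop (j + 2)] with m hm
      exact (h1 j m hm).symm
    · refine tendsto_pi_nhds.2 fun i => tendsto_pi_nhds.2 fun j => ?_
      refine tendsto_const_nhds.congr' ?_
      filter_upwards [eventually_ge_atTop (max i j + 2)] with m hm
      exact (h2 i j m hm).symm
  refine ⟨(x, b), fun k => (hc k).mem_of_tendsto hlim ?_⟩
  filter_upwards [eventually_ge_atTop k] with m hm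
  exact hanti k m hm (hP m)

/-- Fusion. -/
theorem fusion {Req : ℕ → (ℕ → Bool) → Prop}
    (H : ∀ e n F, St n F → ∃ n' F', n < n' ∧ St n' F' ∧ F' ⊆ F ∧
      (∀ p ∈ F', ∀ q ∈ F', ph n p = ph n q) ∧ ∀ x ∈ Prod.fst '' F', Req e x)
    {n₀ : ℕ} {F₀ : Set Wt} (h₀ : St n₀ F₀) : ∃ x ∈ Prod.fst '' F₀, ∀ e, Req e x := by
  have H' : ∀ (e : ℕ) (s : {s : ℕ × Set Wt // St s.1 s.2}), ∃ s' : {s : ℕ × Set Wt // St s.1 s.2},
      s.1.1 < s'.1.1 ∧ s'.1.2 ⊆ s.1.2 ∧ (∀ p ∈ s'.1.2, ∀ q ∈ s'.1.2, ph s.1.1 p = ph s.1.1 q) ∧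
        ∀ x ∈ Prod.fst '' s'.1.2, Req e x := by
    rintro e ⟨⟨n, F⟩, hs⟩
    obtain ⟨n', F', h1, h2, h3, h4, h5⟩ := H e n F hs
    exact ⟨⟨(n', F'), h2⟩, h1, h3, h4, h5⟩
  choose N h1 h2 h3 h4 using H'
  let s : ℕ → {s : ℕ × Set Wt // St s.1 s.2} := fun k =>
    Nat.rec ⟨(n₀, F₀), h₀⟩ (fun e t => N e t) k
  have hn : ∀ k, k ≤ (s k).1.1 := by
    intro k
    induction k with
    | zero => exact Nat.zero_le _
    | succ k ih => exact Nat.succ_le_of_lt (ih.trans_lt (h1 k (s k)))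
  obtain ⟨p, hp⟩ := exists_limit (F := fun k => (s k).1.2) (n := fun k => (s k).1.1) hn
    (fun k => (s k).2.closed) (fun k => by
      obtain ⟨x, ⟨p, hp, -⟩, -⟩ := (s k).2.big fun _ => false
      exact ⟨p, hp⟩) (fun k => h2 k (s k)) (fun k => h3 k (s k))
  exact ⟨p.1, ⟨p, hp 0, rfl⟩, fun e => h4 e (s e) _ ⟨p, hp (e + 1), rfl⟩⟩

end Pool.Agent.N480.OS
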