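import Pool.Agent.N480.OS.Nll

set_option autoImplicit false

/-! Hulls of unions of `ω₁` many sets. -/

namespace Pool.Agent.N480.OS

open Pool.Agent.Helper227 Pool.Agent.N620.WP
open MeasureTheory Ordinal Cardinal Filter Topology Encodable
open Pool.Agent.H685R3 (TuringInvariant Determined)
open scoped ENNReal

variable {T : List Bool × ℕ × List Bool → Prop}

/-- The union of the sets `A α` with `α < β`. -/
def Bl (A : Ordinal.{0} → Set (ℕ → Bool)) (β : Ordinal.{0}) : Set (ℕ → Bool) :=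
  {r | ∃ α < β, r ∈ A α}

/-- The sets `A α` without the `G_δ` set coded by `u`. -/
def Mn (A : Ordinal.{0} → Set (ℕ → Bool)) (u : ℕ → Bool) (α : Ordinal.{0}) : Set (ℕ → Bool) :=
  {r | r ∈ A α ∧ ∃ n, r ∉ Up u n}

variable {A : Ordinal.{0} → Set (ℕ → Bool)}

theorem Bl.mono {β γ : Ordinal.{0}} (h : β ≤ γ) : Bl A β ⊆ Bl A γ := by
  rintro r ⟨α, hα, hr⟩
  exact ⟨α, hα.trans_le h, hr⟩

/-- The outer measures of the partial unions stabilize. -/
theorem exists_stable : ∃ β < ω₁, ∀ γ < ω₁, lam (Bl A γ) ≤ lam (Bl A β) := by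
  let S : Set ℝ≥0∞ := {x | ∃ γ < ω₁, x = lam (Bl A γ)}
  have hne : S.Nonempty := ⟨_, 0, omega_pos 1, rfl⟩
  obtain ⟨x, -, hx, hxS⟩ := exists_seq_tendsto_sSup hne ⟨⊤, fun _ _ => le_top⟩
  choose γ hγ hγ' using hxS
  refine ⟨⨆ n, γ n, Ordinal.iSup_lt_omega_one hγ, fun δ hδ => ?_⟩
  have hmem : lam (Bl A δ) ∈ S := ⟨δ, hδ, rfl⟩
  refine (le_sSup hmem).trans ?_
  refine le_of_tendsto' hx fun n => ?_
  rw [hγ' n]
  exact measure_mono (Bl.mono (Ordinal.le_iSup _ n))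

theorem exists_stable' : ∃ β < ω₁, ∀ γ < ω₁, ∀ σ, IsMeagre (Bl A β ∩ cyl σ) →
    IsMeagre (Bl A γ ∩ cyl σ) := by
  classical
  obtain ⟨e, he⟩ := exists_surjective_nat (List Bool)
  have h : ∀ n, ∃ β < ω₁, (∃ γ < ω₁, ¬ IsMeagre (Bl A γ ∩ cyl (e n))) →
      ¬ IsMeagre (Bl A β ∩ cyl (e n)) := by
    intro n
    by_cases h : ∃ γ < ω₁, ¬ IsMeagre (Bl A γ ∩ cyl (e n))
    · obtain ⟨γ, hγ, hγ'⟩ := h
      exact ⟨γ, hγ, fun _ => hγ'⟩
    · exact ⟨0, omega_pos 1, fun h' => absurd h' h⟩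
  choose b hb hb' using h
  refine ⟨⨆ n, b n, Ordinal.iSup_lt_omega_one hb, fun γ hγ σ hσ => ?_⟩
  obtain ⟨n, rfl⟩ := he σ
  by_contra hcon
  refine hb' n ⟨γ, hγ, hcon⟩ (hσ.mono ?_)
  exact Set.inter_subset_inter_left _ (Bl.mono (Ordinal.le_iSup _ n))

/-- A `G_δ` hull. -/
theorem exists_code_hull (S : Set (ℕ → Bool)) :
    ∃ u, S ⊆ (⋂ n, Up u n) ∧ lam (⋂ n, Up u n) = lam S := by
  have h : ∀ n : ℕ, ∃ U, S ⊆ U ∧ IsOpen U ∧ lam U ≤ lam S + (n + 1 : ℝ≥0∞)⁻¹ := by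
    intro n
    obtain ⟨U, h1, h2, h3⟩ := Set.exists_isOpen_le_add S lam (ε := (n + 1 : ℝ≥0∞)⁻¹) (by simp)
    exact ⟨U, h1, h2, h3⟩
  choose U h1 h2 h3 using h
  obtain ⟨u, hu⟩ := exists_Up h2
  refine ⟨u, Set.subset_iInter fun n => by rw [hu]; exact h1 n, le_antisymm ?_ ?_⟩
  · have h4 : Tendsto (fun n : ℕ => lam S + (n + 1 : ℝ≥0∞)⁻¹) atTop (𝓝 (lam S + 0)) := by
      refine tendsto_const_nhds.add ?_
      have h5 := (tendsto_add_atTop_iff_nat 1).2 ENNReal.tendsto_inv_nat_nhds_zero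
      simpa using h5
    rw [add_zero] at h4
    refine ge_of_tendsto' h4 fun n => ?_
    refine (measure_mono (Set.iInter_subset _ n)).trans ?_
    rw [hu]
    exact h3 n
  · exact measure_mono (Set.subset_iInter fun n => by rw [hu]; exact h1 n)

theorem measurable_code (u : ℕ → Bool) : MeasurableSet (⋂ n, Up u n) :=
  MeasurableSet.iInter fun n => (isOpen_Up u n).measurableSet

theorem hull_theorem (hT : Uni T) (h1 : ∀ u, Determined (Att (KN (Mn A u))))
    (h2 : ∀ u, Determined (Att (KM (Mn A u)))) (h3 : ∀ u, Determined (Att (KB (DD T u)))) :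
    ∃ β < ω₁, (∀ M, MeasurableSet M → lam (Bl A ω₁ ∩ M) = lam (Bl A β ∩ M)) ∧
      ∀ M, BaireMeasurableSet M → IsMeagre (Bl A β ∩ M) → IsMeagre (Bl A ω₁ ∩ M) := by
  obtain ⟨β1, hβ1, hs1⟩ := exists_stable (A := A)
  obtain ⟨β2, hβ2, hs2⟩ := exists_stable' (A := A)
  refine ⟨max β1 β2, max_lt hβ1 hβ2, ?_, ?_⟩
  · -- measure
    have hβ : max β1 β2 < ω₁ := max_lt hβ1 hβ2
    generalize hb : max β1 β2 = β at hβ
    have hs : ∀ γ < ω₁, lam (Bl A γ) ≤ lam (Bl A β) := fun γ hγ =>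
      (hs1 γ hγ).trans (measure_mono (Bl.mono (by rw [← hb]; exact le_max_left _ _)))
    obtain ⟨u, hu1, hu2⟩ := exists_code_hull (Bl A β)
    have hG := measurable_code u
    have hnull : ∀ α < ω₁, lam (Mn A u α) = 0 := by
      intro α hα
      let γ := max β (Order.succ α)
      have hγ : γ < ω₁ := max_lt hβ (succ_lt_omega_one hα)
      have h4 : Mn A u α ⊆ Bl A γ \ ⋂ n, Up u n := by
        rintro r ⟨hr, n, hn⟩
        refine ⟨⟨α, (Order.lt_succ α).trans_le (le_max_right _ _), hr⟩, fun h => hn ?_⟩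
        exact Set.mem_iInter.1 h n
      have h5 : lam (Bl A γ ∩ ⋂ n, Up u n) + lam (Bl A γ \ ⋂ n, Up u n) = lam (Bl A γ) :=
        measure_inter_add_sdiff _ hG
      have h6 : lam (Bl A β) ≤ lam (Bl A γ ∩ ⋂ n, Up u n) :=
        measure_mono fun r hr => ⟨Bl.mono (le_max_left _ _) hr, hu1 hr⟩
      have h7 : lam (Bl A β) + lam (Bl A γ \ ⋂ n, Up u n) ≤ lam (Bl A β) + 0 := by
        rw [add_zero]
        refine le_trans ?_ (hs γ hγ)
        rw [← h5]
        gcongr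
      have h8 : lam (Bl A γ \ ⋂ n, Up u n) ≤ 0 :=
        (ENNReal.add_le_add_iff_left (measure_ne_top _ _)).1 h7
      exact le_antisymm ((measure_mono h4).trans h8) bot_le
    have h4 := union_null hT hnull (h1 u) h3
    intro M hM
    apply le_antisymm
    · have h5 : Bl A ω₁ ∩ M ⊆ ((⋂ n, Up u n) ∩ M) ∪ {r | ∃ α < ω₁, r ∈ Mn A u α} := by
        rintro r ⟨⟨α, hα, hr⟩, hrM⟩
        by_cases h6 : r ∈ ⋂ n, Up u n
        · exact Or.inl ⟨h6, hrM⟩
        · rw [Set.mem_iInter] at h6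
          push Not at h6
          exact Or.inr ⟨α, hα, hr, h6⟩
      refine (measure_mono h5).trans ((measure_union_le _ _).trans ?_)
      rw [h4, add_zero]
      -- the hull
      have h6 : lam ((⋂ n, Up u n) ∩ M) + lam ((⋂ n, Up u n) \ M) = lam (⋂ n, Up u n) :=
        measure_inter_add_sdiff _ hM
      have h7 : lam (Bl A β ∩ M) + lam (Bl A β \ M) = lam (Bl A β) :=
        measure_inter_add_sdiff _ hM
      have h8 : lam (Bl A β \ M) ≤ lam ((⋂ n, Up u n) \ M) :=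
        measure_mono (Set.sdiff_subset_sdiff_left hu1)
      by_contra h9
      push Not at h9
      have h10 : lam (Bl A β ∩ M) + lam (Bl A β \ M) <
          lam ((⋂ n, Up u n) ∩ M) + lam ((⋂ n, Up u n) \ M) :=
        ENNReal.add_lt_add_of_lt_of_le (measure_ne_top _ _) h9 h8
      rw [h6, h7, hu2] at h10
      exact lt_irrefl _ h10
    · exact measure_mono (Set.inter_subset_inter_left _ (Bl.mono hβ.le))
  · -- category
    have hβ : max β1 β2 < ω₁ := max_lt hβ1 hβ2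
    generalize hb : max β1 β2 = β at hβ
    have hs : ∀ γ < ω₁, ∀ σ, IsMeagre (Bl A β ∩ cyl σ) → IsMeagre (Bl A γ ∩ cyl σ) :=
      fun γ hγ σ hσ => hs2 γ hγ σ (hσ.mono (Set.inter_subset_inter_left _
        (Bl.mono (by rw [← hb]; exact le_max_right _ _))))
    have key : ∀ σ, IsMeagre (Bl A β ∩ cyl σ) → IsMeagre (Bl A ω₁ ∩ cyl σ) := by
      intro σ hσ
      have hopen : IsOpen (cyl σ)ᶜ := by
        refine isOpen_of_pre fun r hr => ⟨σ.length, fun r' hr' h => hr ?_⟩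
        rw [mem_cyl_iff] at h ⊢
        rw [← hr']
        exact h
      obtain ⟨u, hu⟩ := exists_Up (U := fun _ => (cyl σ)ᶜ) fun _ => hopen
      have h4 : ∀ α, Mn A u α = A α ∩ cyl σ := by
        intro α
        ext r
        constructor
        · rintro ⟨hr, n, hn⟩
          rw [hu] at hn
          exact ⟨hr, not_not.1 hn⟩
        · rintro ⟨hr, hr'⟩
          exact ⟨hr, 0, by rw [hu]; exact not_not.2 hr'⟩
      have h5 := union_meagre (M := Mn A u) (fun α hα => by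
        rw [h4]
        refine (hs (Order.succ α) (succ_lt_omega_one hα) σ hσ).mono ?_
        exact Set.inter_subset_inter_left _ fun r hr => ⟨α, Order.lt_succ α, hr⟩) (h2 u)
      refine h5.mono ?_
      rintro r ⟨⟨α, hα, hr⟩, hr'⟩
      exact ⟨α, hα, by rw [h4]; exact ⟨hr, hr'⟩⟩
    intro M hM hMm
    obtain ⟨V, hV, hMV⟩ := hM.residualEq_isOpen
    have hVM : IsMeagre (V \ M) := by
      refine Filter.mem_of_superset hMV fun x hx hx' => ?_
      have h4 : (x ∈ M) = (x ∈ V) := hx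
      exact hx'.2 (h4 ▸ hx'.1)
    have hMV' : IsMeagre (M \ V) := by
      refine Filter.mem_of_superset hMV fun x hx hx' => ?_
      have h4 : (x ∈ M) = (x ∈ V) := hx
      exact hx'.2 (h4 ▸ hx'.1)
    have h4 : ∀ σ : {σ : List Bool // cyl σ ⊆ V}, IsMeagre (Bl A ω₁ ∩ cyl σ.1) := by
      rintro ⟨σ, hσ⟩
      refine key σ ((hMm.union hVM).mono ?_)
      rintro r ⟨hr, hr'⟩
      by_cases h : r ∈ M
      · exact Or.inl ⟨hr, h⟩
      · exact Or.inr ⟨hσ hr', h⟩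
    refine ((isMeagre_iUnion h4).union hMV').mono ?_
    rintro r ⟨hr, hrM⟩
    by_cases h : r ∈ V
    · obtain ⟨k, hk⟩ := exists_pre_of_isOpen hV h
      refine Or.inl (Set.mem_iUnion.2 ⟨⟨pre r k, fun r' hr' => hk r' ?_⟩, hr, mem_cyl_pre r k⟩)
      rw [mem_cyl_iff] at hr'
      simpa using hr'
    · exact Or.inr ⟨hrM, h⟩

end Pool.Agent.N480.OS
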