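import Pool.Agent.N480.OS.Tre

set_option autoImplicit false

/-! Homogeneity of the generic presentations. -/

namespace Pool.Agent.N480.OS

open Pool.Agent.Helper227 Pool.Agent.N620.WP
open MeasureTheory Ordinal Cardinal Filter Topology
open Pool.Agent.Y588.PD (Fam RLe exists_fam)

variable {α α' : Ordinal.{0}} {g g' : ℕ → Option Ordinal.{0}} {m m' : ℕ}

/-- The strings realized by the extensions of a condition. -/
def Xt (α : Ordinal.{0}) (m : ℕ) (g : ℕ → Option Ordinal.{0}) : Set (List Bool) :=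
  {d | ∃ m' g', Ex m g m' g' ∧ Vd α g' m' ∧ d = pre (st g') m'}

open Classical in
/-- The finite part of an ordinal. -/
noncomputable def fp (t : Ordinal.{0}) : Option ℕ :=
  if h : ∃ k : ℕ, t = k then some (Classical.choose h) else none

theorem fp_eq {t t' : Ordinal.{0}} (h : fp t = fp t') (ht : t < ω) : t' = t := by
  obtain ⟨k, rfl⟩ := Ordinal.lt_omega0.1 ht
  unfold fp at h
  have h1 : ∃ k' : ℕ, (k : Ordinal.{0}) = k' := ⟨k, rfl⟩
  rw [dif_pos h1] at h
  by_cases h2 : ∃ k' : ℕ, t' = k'
  · rw [dif_pos h2] at h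
    have h3 := Classical.choose_spec h1
    have h4 := Classical.choose_spec h2
    rw [h3, h4, Option.some.inj h]
  · rw [dif_neg h2] at h
    cases h

/-- The table of a condition. -/
noncomputable def tb (g : ℕ → Option Ordinal.{0}) (n : ℕ) : Option (Option ℕ) := (g n).map fp

theorem Xt_subset (hg' : Vd α' g' m) (hm : 0 < m)
    (h : ∀ n < m, tb g n = tb g' n) : Xt α m g ⊆ Xt α' m g' := by
  rintro d ⟨m1, f, h1, h2, rfl⟩
  let f' : ℕ → Option Ordinal.{0} := fun n =>
    if n < m then g' n else (f n).map fun t => min t ((m1 - n : ℕ) : Ordinal.{0})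
  have hst : ∀ n < m1, st f' n = st f n := by
    intro n _
    unfold st
    simp only [f']
    by_cases hn : n < m
    · rw [if_pos hn, h1.2 n hn]
      have h3 := h n hn
      unfold tb at h3
      have h4 := congrArg Option.isSome h3
      simpa using h4.symm
    · rw [if_neg hn]
      simp
  refine ⟨m1, f', ⟨h1.1, fun n hn => ?_⟩, ⟨?_, fun k hk u hu => ?_⟩, ?_⟩
  · simp only [f']
    rw [if_pos hn]
  · simp only [f']
    rw [if_pos hm]
    exact hg'.1
  · have hq := Nat.unpair_left_le k
    simp only [f'] at hu ⊢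
    by_cases hkm : k + 1 < m
    · rw [if_pos hkm] at hu
      rw [if_pos (by omega)]
      exact hg'.2 k hkm u hu
    · rw [if_neg hkm] at hu
      obtain ⟨t, ht, rfl⟩ := Option.map_eq_some_iff.1 hu
      obtain ⟨t', h3, h4⟩ := h2.2 k hk t ht
      by_cases hqm : k.unpair.1 < m
      · rw [if_pos hqm]
        rw [h1.2 _ hqm] at h3
        have h5 := h _ hqm
        unfold tb at h5
        rw [h3] at h5
        obtain ⟨t'', h6, h7⟩ := Option.map_eq_some_iff.1 h5.symm
        refine ⟨t'', h6, ?_⟩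
        rcases lt_or_ge t'' ω with h8 | h8
        · rw [fp_eq h7 h8] at h4
          exact (min_le_left _ _).trans_lt h4
        · exact (min_le_right _ _).trans_lt ((Ordinal.natCast_lt_omega0 _).trans_le h8)
      · rw [if_neg hqm, h3]
        refine ⟨_, rfl, ?_⟩
        refine lt_min ((min_le_left _ _).trans_lt h4) ((min_le_right _ _).trans_lt ?_)
        exact_mod_cast (by omega : m1 - (k + 1) < m1 - k.unpair.1)
  · exact (pre_eq_iff.2 fun n hn => hst n hn).symm

theorem Xt_eq (hg : Vd α g m) (hg' : Vd α' g' m) (hm : 0 < m)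
    (h : ∀ n < m, tb g n = tb g' n) : Xt α m g = Xt α' m g' :=
  (Xt_subset hg' hm h).antisymm (Xt_subset hg hm fun n hn => (h n hn).symm)

/-- All sets `Xt α m g`. -/
def XX : Set (Set (List Bool)) := {X | ∃ α m g, 0 < m ∧ Vd α g m ∧ X = Xt α m g}

theorem countable_XX : XX.Countable := by
  classical
  let T : List (Option (Option ℕ)) → Set (List Bool) → Prop := fun l X =>
    ∃ α m g, 0 < m ∧ Vd α g m ∧ X = Xt α m g ∧ l = (List.range m).map (tb g)
  have huniq : ∀ l X Y, T l X → T l Y → X = Y := by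
    rintro l X Y ⟨α, m, g, h1, h2, rfl, rfl⟩ ⟨α', m', g', h3, h4, rfl, h5⟩
    have h6 : m = m' := by
      have := congrArg List.length h5
      simpa using this
    subst h6
    refine Xt_eq h2 h4 h1 fun n hn => ?_
    have h7 := List.map_inj_left.1 h5
    exact h7 n (List.mem_range.2 hn)
  refine (Set.countable_range fun l => if h : ∃ X, T l X then Classical.choose h else ∅).mono ?_
  rintro X ⟨α, m, g, h1, h2, h3⟩
  refine ⟨(List.range m).map (tb g), ?_⟩
  have h : ∃ X, T ((List.range m).map (tb g)) X := ⟨X, α, m, g, h1, h2, h3, rfl⟩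
  beta_reduce
  rw [dif_pos h]
  exact huniq _ _ _ (Classical.choose_spec h) ⟨α, m, g, h1, h2, h3, rfl⟩

/-- The initial segment of `w ⊕ s` determined by the initial segment `d` of `s`. -/
def jn (w : ℕ → Bool) (d : List Bool) : List Bool :=
  pre (join w fun n => d.getD n false) (2 * d.length)

theorem jn_pre (w s : ℕ → Bool) (m : ℕ) : jn w (pre s m) = pre (join w s) (2 * m) := by
  unfold jn
  rw [length_pre, pre_eq_iff]
  intro i hi
  rcases Nat.even_or_odd' i with ⟨k, rfl | rfl⟩
  · rw [join_even, join_even]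
  · rw [join_odd, join_odd, pre_getD _ _ _ _ (by omega)]

variable {E : ℕ → List Bool → ℕ → Bool → Prop}

theorem exists_jn (hE : Fam E) {e n : ℕ} {v : Bool} {w s : ℕ → Bool} {k₀ : ℕ} :
    (∃ k, E e (pre (join w s) k) n v) ↔ ∃ m, k₀ ≤ m ∧ E e (jn w (pre s m)) n v := by
  constructor
  · rintro ⟨k, hk⟩
    refine ⟨max k₀ k, le_max_left _ _, ?_⟩
    rw [jn_pre]
    exact hE.mono _ _ _ _ _ (pre_prefix _ (by omega)) hk
  · rintro ⟨m, -, hm⟩
    rw [jn_pre] at hm
    exact ⟨_, hm⟩

/-- A real in the selection set computed from a generic presentation. -/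
theorem exists_functional {K : Ordinal.{0} → Set (ℕ → Bool)}
    {w : ℕ → Bool} (hw : ∀ c α, Codes c α → ∃ y ∈ K α, TLe y (join w c)) {s : ℕ → Bool}
    (hs : Codes (cd s) α) : ∃ y ∈ K α, TLe y (join w s) := by
  obtain ⟨y, hy, h1⟩ := hw _ α hs
  exact ⟨y, hy, h1.trans (join_tLe (tLe_join_left _ _) ((tLe_cd s).trans (tLe_join_right _ _)))⟩

end Pool.Agent.N480.OS
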