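import Pool.Agent.N480.OS.Col

set_option autoImplicit false

/-! Measurable hulls and codes of ordinals by surjections. -/

namespace Pool.Agent.N480.OS

open Pool.Agent.Helper227 Pool.Agent.N620.WP
open MeasureTheory Ordinal Cardinal Filter Topology Encodable
open scoped ENNReal

/-- Two measurable sets with the same measure on all cylinders are almost equal. -/
theorem null_diff {H H' : Set (ℕ → Bool)} (hH' : MeasurableSet H')
    (h : ∀ σ, lam (H ∩ cyl σ) = lam (H' ∩ cyl σ)) : lam (H \ H') = 0 := by
  have h1 : ∀ σ, lam.restrict H (cyl σ) = lam.restrict H' (cyl σ) := by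
    intro σ
    rw [Measure.restrict_apply (measurableSet_cyl σ), Measure.restrict_apply (measurableSet_cyl σ),
      Set.inter_comm, h σ, Set.inter_comm]
  have h2 : lam.restrict H = lam.restrict H' := by
    refine ext_of_generate_finite (insert ∅ (Set.range cyl)) ?_ ?_ ?_ ?_
    · refine le_antisymm ?_ ?_
      · rw [MeasurableSpace.pi_eq_generateFrom_projections]
        refine MeasurableSpace.generateFrom_le ?_
        rintro s ⟨i, A, hA, rfl⟩
        have h3 : (Function.eval i ⁻¹' A : Set (ℕ → Bool)) =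
            ⋃ σ ∈ {σ : List Bool | σ.length = i + 1 ∧ σ.getD i false ∈ A}, cyl σ := by
          ext x
          simp only [Set.mem_preimage, Set.mem_iUnion, Set.mem_ofPred_eq, exists_prop,
            Function.eval]
          constructor
          · intro hx
            refine ⟨pre x (i + 1), ⟨by simp, ?_⟩, mem_cyl_pre _ _⟩
            rw [pre_getD _ _ _ _ (Nat.lt_succ_self i)]
            exact hx
          · rintro ⟨σ, ⟨h4, h5⟩, h6⟩
            rw [mem_cyl_iff] at h6
            rw [← h6, pre_getD _ _ _ _ (by omega)] at h5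
            exact h5
        rw [h3]
        refine MeasurableSet.biUnion (Set.to_countable _) fun σ _ => ?_
        exact MeasurableSpace.measurableSet_generateFrom (Or.inr ⟨σ, rfl⟩)
      · refine MeasurableSpace.generateFrom_le ?_
        rintro s (rfl | ⟨σ, rfl⟩)
        · exact MeasurableSet.empty
        · exact measurableSet_cyl σ
    · rintro s hs t ht hst
      rcases hs with rfl | ⟨σ, rfl⟩
      · simp at hst
      rcases ht with rfl | ⟨τ, rfl⟩
      · simp at hst
      obtain ⟨x, hx, hx'⟩ := hst
      rw [mem_cyl_iff] at hx hx'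
      rcases le_total σ.length τ.length with h3 | h3
      · have h4 : σ <+: τ := by
          rw [← hx, ← hx']
          exact pre_prefix x h3
        right
        exact ⟨τ, (Set.inter_eq_right.2 (cyl_subset h4)).symm⟩
      · have h4 : τ <+: σ := by
          rw [← hx, ← hx']
          exact pre_prefix x h3
        right
        exact ⟨σ, (Set.inter_eq_left.2 (cyl_subset h4)).symm⟩
    · rintro s (rfl | ⟨σ, rfl⟩)
      · simp
      · exact h1 σ
    · have h3 := h1 []
      have h4 : cyl [] = Set.univ := by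
        ext x
        simp [mem_cyl_iff, pre]
      rwa [h4] at h3
  have h3 : lam.restrict H H'ᶜ = 0 := by
    rw [h2, Measure.restrict_apply hH'.compl]
    simp
  rwa [Measure.restrict_apply hH'.compl, Set.inter_comm] at h3

/-- The hull. -/
noncomputable def hull (A : Set (ℕ → Bool)) : Set (ℕ → Bool) := toMeasurable lam A

theorem subset_hull (A : Set (ℕ → Bool)) : A ⊆ hull A := subset_toMeasurable _ _

theorem measurableSet_hull (A : Set (ℕ → Bool)) : MeasurableSet (hull A) :=
  measurableSet_toMeasurable _ _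

theorem hull_inter (A : Set (ℕ → Bool)) {s : Set (ℕ → Bool)} (hs : MeasurableSet s) :
    lam (hull A ∩ s) = lam (A ∩ s) :=
  Measure.measure_toMeasurable_inter_of_sFinite hs A

theorem hull_diff_iUnion {ι : Type*} [Countable ι] {A : Set (ℕ → Bool)} {B : ι → Set (ℕ → Bool)}
    (h : A ⊆ ⋃ i, B i) : lam (hull A \ ⋃ i, hull (B i)) = 0 := by
  have h1 : MeasurableSet (⋃ i, hull (B i))ᶜ :=
    (MeasurableSet.iUnion fun i => measurableSet_hull _).compl
  rw [Set.sdiff_eq, hull_inter A h1]
  have h2 : A ∩ (⋃ i, hull (B i))ᶜ = ∅ := by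
    rw [← Set.sdiff_eq, Set.sdiff_eq_empty]
    exact h.trans (Set.iUnion_mono fun i => subset_hull _)
  rw [h2, measure_empty]

theorem hull_inter_null {A D : Set (ℕ → Bool)} (hD : MeasurableSet D) (h : A ∩ D = ∅) :
    lam (hull A ∩ D) = 0 := by
  rw [hull_inter A hD, h, measure_empty]

open Classical in
/-- The real coding the outer measures of the sets `A n ∩ cyl σ`. -/
noncomputable def hv (A : ℕ → Set (ℕ → Bool)) : ℕ → Bool := fun m =>
  decide (∃ (q : ℚ) (n : ℕ) (σ : List Bool), m = encode (q, n, σ) ∧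
    ENNReal.ofReal q < lam (A n ∩ cyl σ))

theorem hv_eq {A A' : ℕ → Set (ℕ → Bool)} (h : hv A = hv A') (n : ℕ) (σ : List Bool) :
    lam (A n ∩ cyl σ) = lam (A' n ∩ cyl σ) := by
  classical
  have key : ∀ {A A' : ℕ → Set (ℕ → Bool)}, hv A = hv A' → ¬ lam (A n ∩ cyl σ) < lam (A' n ∩ cyl σ) := by
    intro A A' h hlt
    obtain ⟨q, -, h1, h2⟩ := ENNReal.lt_iff_exists_rat_btwn.1 hlt
    have h3 : hv A' (encode (q, n, σ)) = true :=
      decide_eq_true ⟨q, n, σ, rfl, h2⟩
    rw [← h] at h3
    obtain ⟨q', n', σ', h4, h5⟩ := of_decide_eq_true h3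
    have h6 := encode_injective h4
    simp only [Prod.mk.injEq] at h6
    obtain ⟨rfl, rfl, rfl⟩ := h6
    exact absurd (h1.trans h5) (lt_irrefl _)
  exact le_antisymm (not_lt.1 (key h.symm)) (not_lt.1 (key h))

theorem hull_diff_hull {A A' : ℕ → Set (ℕ → Bool)} (h : hv A = hv A') (n : ℕ) :
    lam (hull (A n) \ hull (A' n)) = 0 := by
  refine null_diff (measurableSet_hull _) fun σ => ?_
  rw [hull_inter _ (measurableSet_cyl σ), hull_inter _ (measurableSet_cyl σ), hv_eq h]

/-! ### Codes by surjections -/

open Classical in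
/-- The code of the prewellordering induced by `f`. -/
noncomputable def cf (f : ℕ → Ordinal.{0}) : ℕ → Bool := fun m =>
  decide (f m.unpair.1 < f m.unpair.2)

/-- The function `f` presents `α`. -/
def Prs (α : Ordinal.{0}) (f : ℕ → Ordinal.{0}) : Prop := f 0 = α ∧ Set.range f = Set.Iic α

theorem rel_cf {f : ℕ → Ordinal.{0}} {i j : ℕ} : Rel (cf f) i j ↔ f i < f j := by
  unfold Rel cf
  simp

theorem codes_cf {α : Ordinal.{0}} {f : ℕ → Ordinal.{0}} (h : Prs α f) : Codes (cf f) α := by
  have hW : WellFounded (Rel (cf f)) := by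
    refine Subrelation.wf (r := InvImage (· < ·) f) ?_ (InvImage.wf _ Ordinal.lt_wf)
    intro i j h1
    exact rel_cf.1 h1
  have hI : IsWellFounded ℕ (Rel (cf f)) := ⟨hW⟩
  refine ⟨hI, ?_⟩
  have key : ∀ i, IsWellFounded.rank (Rel (cf f)) i = f i := by
    intro i
    induction i using IsWellFounded.induction (Rel (cf f)) with
    | ind i ih =>
      rw [IsWellFounded.rank_eq]
      apply le_antisymm
      · refine Ordinal.iSup_le fun j => ?_
        rw [ih j.1 j.2, Order.succ_le_iff]
        exact rel_cf.1 j.2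
      · refine le_of_forall_lt fun t ht => ?_
        have h1 : f i ∈ Set.range f := ⟨i, rfl⟩
        rw [h.2] at h1
        have h2 : t ∈ Set.range f := by
          rw [h.2]
          exact ht.le.trans h1
        obtain ⟨j, hj⟩ := h2
        have h3 : Rel (cf f) j i := rel_cf.2 (by rw [hj]; exact ht)
        rw [Ordinal.lt_iSup_iff]
        refine ⟨⟨j, h3⟩, ?_⟩
        rw [ih j h3, hj]
        exact Order.lt_succ t
  rw [key 0]
  exact h.1

theorem exists_prs {α : Ordinal.{0}} (hα : α < ω₁) : ∃ f, Prs α f := by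
  have := countable_Iic hα
  have : Nonempty {β : Ordinal.{0} // β ≤ α} := ⟨⟨α, le_rfl⟩⟩
  obtain ⟨a, ha⟩ := exists_surjective_nat {β : Ordinal.{0} // β ≤ α}
  refine ⟨fun n => Nat.casesOn n α fun k => (a k).1, rfl, ?_⟩
  ext t
  constructor
  · rintro ⟨n, rfl⟩
    cases n with
    | zero => exact Set.mem_Iic.2 le_rfl
    | succ k => exact (a k).2
  · intro ht
    obtain ⟨k, hk⟩ := ha ⟨t, ht⟩
    exact ⟨k + 1, by simp [hk]⟩

/-- The function `f` extends the finite sequence `p`. -/
def Sb (p : List Ordinal.{0}) (f : ℕ → Ordinal.{0}) : Prop := (List.range p.length).map f = p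

theorem sb_range (f : ℕ → Ordinal.{0}) (k : ℕ) : Sb ((List.range k).map f) f := by
  unfold Sb
  simp

theorem Sb.getD {p : List Ordinal.{0}} {f : ℕ → Ordinal.{0}} (h : Sb p f) {i : ℕ}
    (hi : i < p.length) : p.getD i 0 = f i := by
  have h1 : ((List.range p.length).map f).getD i 0 = f i := by
    rw [List.getD_eq_getElem _ _ (by simpa using hi)]
    simp
  rwa [h] at h1

theorem pre_cf {p : List Ordinal.{0}} {f : ℕ → Ordinal.{0}} (h : Sb p f) :
    pre (cf fun i => p.getD i 0) p.length = pre (cf f) p.length := by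
  refine pre_eq_iff.2 fun i hi => ?_
  unfold cf
  have h1 := Nat.unpair_left_le i
  have h2 := Nat.unpair_right_le i
  beta_reduce
  rw [h.getD (by omega), h.getD (by omega)]

end Pool.Agent.N480.OS
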