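import Pool.Agent.N480.OS.Hul

set_option autoImplicit false

/-! Unions of `ω₁` many null sets. -/

namespace Pool.Agent.N480.OS

open Pool.Agent.Helper227 Pool.Agent.N620.WP
open MeasureTheory Ordinal Cardinal Filter Topology Encodable
open Pool.Agent.H685R3 (TuringInvariant Determined)
open Pool.Agent.Y588.PD (Fam RLe exists_fam)
open scoped ENNReal

/-- The enumeration of a universal oracle test. -/
structure Uni (T : List Bool × ℕ × List Bool → Prop) : Prop where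
  mono : Mono3 T
  le : ∀ A n, lam (Helper227.UE T A n) ≤ (1 / 2) ^ n
  cap : ∀ x y, TLe y x → (∀ n, lam (Up y n) ≤ (1 / 2) ^ n) →
    ∀ n, (⋂ k, Up y k) ⊆ Helper227.UE T x n

theorem isMLTest_Up {y : ℕ → Bool} (h : ∀ n, lam (Up y n) ≤ (1 / 2) ^ n) : IsMLTest y (Up y) := by
  refine ⟨⟨{m | y m = true}, ?_, fun n => ?_⟩, h⟩
  · rw [SI.iff_ceIn]
    exact SI.query.comp (f := fun m : ℕ => (m, true)) (Primrec.id.pair (Primrec.const true))
  · ext r
    simp only [Up, Set.mem_ofPred_eq, Set.mem_iUnion, exists_prop]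
    constructor
    · rintro ⟨k, hk⟩
      exact ⟨pre r k, hk, mem_cyl_pre _ _⟩
    · rintro ⟨σ, h1, h2⟩
      rw [mem_cyl_iff] at h2
      exact ⟨σ.length, by rw [h2]; exact h1⟩

theorem exists_uni : ∃ T, Uni T := by
  obtain ⟨T, -, h1, h2, h3⟩ := exists_universal
  refine ⟨T, h1, h2, fun x y hxy hy n r hr => ?_⟩
  by_contra h
  exact (h3 x r).2 ⟨n, h⟩ _ ((isMLTest_Up hy).mono hxy) hr

variable {T : List Bool × ℕ × List Bool → Prop}

/-- The points for which some presentation of `α` extending `p` avoids the test. -/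
def EE (T : List Bool × ℕ × List Bool → Prop) (w : ℕ → Bool) (α : Ordinal.{0})
    (p : List Ordinal.{0}) (n : ℕ) : Set (ℕ → Bool) :=
  {r | ∃ f, Prs α f ∧ Sb p f ∧ r ∉ Helper227.UE T (join w (cf f)) n}

/-- The finite sequences of ordinals at most `α`. -/
def Qs (α : Ordinal.{0}) : Set (List Ordinal.{0}) := {p | ∀ ξ ∈ p, ξ ≤ α}

/-- The `k`-th column of `v`. -/
def col (v : ℕ → Bool) (k : ℕ) : ℕ → Bool := fun i => v (Nat.pair k i)

open Classical in
/-- The real coding the set of all types of extensions of `p` containing `ξ`. -/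
noncomputable def Sx (T : List Bool × ℕ × List Bool → Prop) (w v : ℕ → Bool) (α : Ordinal.{0})
    (p : List Ordinal.{0}) (ξ : Ordinal.{0}) : ℕ → Bool := fun k =>
  decide (∃ q ∈ Qs α, p <+: q ∧ p.length < q.length ∧ ξ ∈ q ∧ hv (EE T w α q) = col v k)

/-- The countable sets of reals. -/
def DD (T : List Bool × ℕ × List Bool → Prop) (u : ℕ → Bool) (α : Ordinal.{0}) :
    Set (ℕ → Bool) :=
  {y | ∃ p ∈ Qs α, ∃ ξ ≤ α,
    y = join (hv (EE T (evn u) α p)) (Sx T (evn u) (odd' u) α p ξ)}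

theorem countable_Qs {α : Ordinal.{0}} (hα : α < ω₁) : (Qs α).Countable := by
  have := countable_Iic hα
  refine (Set.countable_range fun l : List {β : Ordinal.{0} // β ≤ α} => l.map (·.1)).mono ?_
  intro p hp
  refine ⟨p.attach.map fun x => ⟨x.1, hp x.1 x.2⟩, ?_⟩
  simp

theorem countable_DD {α : Ordinal.{0}} (hα : α < ω₁) (u : ℕ → Bool) : (DD T u α).Countable := by
  have h1 := countable_Qs hα
  have h2 : {ξ : Ordinal.{0} | ξ ≤ α}.Countable := by
    have := countable_Iic hα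
    exact Set.countable_coe_iff.1 this
  refine ((h1.prod h2).image fun q => join (hv (EE T (evn u) α q.1))
    (Sx T (evn u) (odd' u) α q.1 q.2)).mono ?_
  rintro y ⟨p, hp, ξ, hξ, rfl⟩
  exact ⟨(p, ξ), ⟨hp, hξ⟩, rfl⟩

/-- The set attached to a sequence of null sets. -/
def KN (N : Ordinal.{0} → Set (ℕ → Bool)) (α : Ordinal.{0}) : Set (ℕ → Bool) :=
  {y | (∀ n, lam (Up y n) ≤ (1 / 2) ^ n) ∧ ∀ r ∈ N α, ∀ n, r ∈ Up y n}

theorem exists_KN {N : Set (ℕ → Bool)} (hN : lam N = 0) :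
    ∃ y, (∀ n, lam (Up y n) ≤ (1 / 2) ^ n) ∧ ∀ r ∈ N, ∀ n, r ∈ Up y n := by
  have h1 : ∀ n : ℕ, ∃ U, N ⊆ U ∧ IsOpen U ∧ lam U ≤ (1 / 2) ^ n := by
    intro n
    obtain ⟨U, h2, h3, h4⟩ := Set.exists_isOpen_lt_of_lt N ((1 / 2 : ℝ≥0∞) ^ n) (by
      rw [hN]
      exact ENNReal.pow_pos (by norm_num) n)
    exact ⟨U, h2, h3, h4.le⟩
  choose U h2 h3 h4 using h1
  obtain ⟨y, hy⟩ := exists_Up h3
  exact ⟨y, fun n => by rw [hy]; exact h4 n, fun r hr n => by rw [hy]; exact h2 n hr⟩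

theorem measurableSet_fin (T : List Bool × ℕ × List Bool → Prop) (σ : List Bool) (n : ℕ) :
    MeasurableSet {r : ℕ → Bool | ∃ t, T (σ, n, pre r t)} := by
  refine IsOpen.measurableSet (isOpen_of_pre ?_)
  rintro r ⟨t, ht⟩
  exact ⟨t, fun r' hr' => ⟨t, by rw [hr']; exact ht⟩⟩

theorem union_null (hT : Uni T) {N : Ordinal.{0} → Set (ℕ → Bool)}
    (hN : ∀ α < ω₁, lam (N α) = 0) (h1 : Determined (Att (KN N)))
    (h2 : ∀ u, Determined (Att (KB (DD T u)))) : lam {r | ∃ α < ω₁, r ∈ N α} = 0 := by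
  classical
  obtain ⟨w, hw⟩ := select (K := KN N) (fun α hα => exists_KN (hN α hα)) h1
  -- the types
  have hcG : {b | ∃ α < ω₁, ∃ p ∈ Qs α, b = hv (EE T w α p)}.Countable := by
    refine ((union_countable (B := DD T (join w w)) (fun α hα => countable_DD hα _)
      (h2 _)).image evn).mono ?_
    rintro b ⟨α, hα, p, hp, rfl⟩
    refine ⟨_, ⟨α, hα, p, hp, 0, bot_le, rfl⟩, ?_⟩
    rw [evn_join', evn_join']
  have hne : {b | ∃ α < ω₁, ∃ p ∈ Qs α, b = hv (EE T w α p)}.Nonempty :=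
    ⟨_, 0, omega_pos 1, [], fun ξ hξ => by simp at hξ, rfl⟩
  obtain ⟨γ, hγ⟩ := hcG.exists_eq_range hne
  let v : ℕ → Bool := fun m => γ m.unpair.1 m.unpair.2
  have hcol : ∀ k, col v k = γ k := by
    intro k
    funext i
    simp [col, v]
  have hS : {b | ∃ α < ω₁, ∃ p ∈ Qs α, ∃ ξ ≤ α, b = Sx T w v α p ξ}.Countable := by
    refine ((union_countable (B := DD T (join w v)) (fun α hα => countable_DD hα _)
      (h2 _)).image odd').mono ?_
    rintro b ⟨α, hα, p, hp, ξ, hξ, rfl⟩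
    refine ⟨_, ⟨α, hα, p, hp, ξ, hξ, rfl⟩, ?_⟩
    rw [odd_join', evn_join', odd_join']
  have hγ' : ∀ k, ∃ α < ω₁, ∃ p ∈ Qs α, γ k = hv (EE T w α p) := by
    intro k
    have h3 : γ k ∈ Set.range γ := ⟨k, rfl⟩
    rw [← hγ] at h3
    exact h3
  choose a ha P hP hγP using hγ'
  let H : ℕ → ℕ → Set (ℕ → Bool) := fun k n => hull (EE T w (a k) (P k) n)
  have hHm : ∀ k n, MeasurableSet (H k n) := fun k n => measurableSet_hull _
  have hH1 : ∀ α p k, γ k = hv (EE T w α p) → ∀ n, lam (H k n \ hull (EE T w α p n)) = 0 :=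
    fun α p k h n => hull_diff_hull ((hγP k).symm.trans h) n
  have hH2 : ∀ α p k, γ k = hv (EE T w α p) → ∀ n, lam (hull (EE T w α p n) \ H k n) = 0 :=
    fun α p k h n => hull_diff_hull (h.symm.trans (hγP k)) n
  have hex : ∀ α < ω₁, ∀ p ∈ Qs α, ∃ k, γ k = hv (EE T w α p) := by
    intro α hα p hp
    have h3 : hv (EE T w α p) ∈ Set.range γ := by
      rw [← hγ]
      exact ⟨α, hα, p, hp, rfl⟩
    exact h3
  let F : List Bool → ℕ → Set (ℕ → Bool) := fun σ n => {r | ∃ t, T (σ, n, pre r t)}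
  -- the null sets
  let S : Set (ℕ → Bool) := {b | ∃ α < ω₁, ∃ p ∈ Qs α, ∃ ξ ≤ α, b = Sx T w v α p ξ}
  let Z1 : Set (ℕ → Bool) := ⋃ b ∈ S, ⋃ q ∈ {q : ℕ × ℕ | lam (H q.1 q.2 \
    ⋃ j ∈ {j | b j = true}, H j q.2) = 0}, (H q.1 q.2 \ ⋃ j ∈ {j | b j = true}, H j q.2)
  let Z2 : Set (ℕ → Bool) := ⋃ q ∈ {q : (ℕ × ℕ) × List Bool | lam (H q.1.1 q.1.2 ∩ F q.2 q.1.2) = 0},
    (H q.1.1 q.1.2 ∩ F q.2 q.1.2)
  let Z3 : Set (ℕ → Bool) := ⋃ k ∈ {k | lam (⋂ n, (H k n)ᶜ) = 0}, ⋂ n, (H k n)ᶜ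
  let Z4 : Set (ℕ → Bool) := ⋃ q ∈ {q : ℕ × ℕ | lam (H q.1 q.2) = 0}, H q.1 q.2
  have hZ1 : lam Z1 = 0 := by
    refine (measure_biUnion_null_iff hS).2 fun b _ => ?_
    exact (measure_biUnion_null_iff (Set.to_countable _)).2 fun q hq => hq
  have hZ2 : lam Z2 = 0 := (measure_biUnion_null_iff (Set.to_countable _)).2 fun q hq => hq
  have hZ3 : lam Z3 = 0 := (measure_biUnion_null_iff (Set.to_countable _)).2 fun q hq => hq
  have hZ4 : lam Z4 = 0 := (measure_biUnion_null_iff (Set.to_countable _)).2 fun q hq => hq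
  have hZ : lam (Z1 ∪ Z2 ∪ (Z3 ∪ Z4)) = 0 :=
    measure_union_null (measure_union_null hZ1 hZ2) (measure_union_null hZ3 hZ4)
  refine measure_mono_null ?_ hZ
  rintro r ⟨α, hα, hr⟩
  by_contra hcon
  simp only [Set.mem_union, not_or] at hcon
  obtain ⟨⟨hr1, hr2⟩, hr3, hr4⟩ := hcon
  have := countable_Iic hα
  have : Nonempty {β : Ordinal.{0} // β ≤ α} := ⟨⟨α, le_rfl⟩⟩
  obtain ⟨e, he⟩ := exists_surjective_nat {β : Ordinal.{0} // β ≤ α}
  -- the start
  have hnil : ([] : List Ordinal.{0}) ∈ Qs α := fun ξ hξ => by simp at hξ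
  obtain ⟨k₀, hk₀⟩ := hex α hα [] hnil
  have h3 : lam (⋂ n, (H k₀ n)ᶜ) = 0 := by
    obtain ⟨f, hf⟩ := exists_prs hα
    have h4 : ∀ n, lam (H k₀ n)ᶜ ≤ (1 / 2) ^ n := by
      intro n
      have h5 : (H k₀ n)ᶜ ⊆ Helper227.UE T (join w (cf f)) n ∪
          (hull (EE T w α [] n) \ H k₀ n) := by
        intro x hx
        by_cases h6 : x ∈ Helper227.UE T (join w (cf f)) n
        · exact Or.inl h6
        · exact Or.inr ⟨subset_hull _ ⟨f, hf, by simp [Sb], h6⟩, hx⟩
      refine (measure_mono h5).trans ((measure_union_le _ _).trans ?_)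
      rw [hH2 α [] k₀ hk₀ n, add_zero]
      exact hT.le _ _
    refine le_antisymm (le_of_forall_gt fun c hc => ?_) bot_le
    obtain ⟨n, hn⟩ := (((ENNReal.tendsto_pow_atTop_nhds_zero_of_lt_one
      (r := (1 / 2 : ℝ≥0∞)) (by norm_num)).eventually (gt_mem_nhds hc))).exists
    exact ((measure_mono (Set.iInter_subset _ n)).trans (h4 n)).trans_lt hn
  obtain ⟨n, hn⟩ : ∃ n, r ∈ H k₀ n := by
    by_contra h4
    push Not at h4
    exact hr3 (Set.mem_biUnion (x := k₀) h3 (Set.mem_iInter.2 h4))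
  -- the successor step
  have hstep : ∀ (j : ℕ) (s : {s : List Ordinal.{0} × ℕ // s.1 ∈ Qs α ∧ γ s.2 = hv (EE T w α s.1) ∧
      r ∈ H s.2 n}), ∃ s' : {s : List Ordinal.{0} × ℕ // s.1 ∈ Qs α ∧
      γ s.2 = hv (EE T w α s.1) ∧ r ∈ H s.2 n}, s.1.1 <+: s'.1.1 ∧ s.1.1.length < s'.1.1.length ∧
      (e j).1 ∈ s'.1.1 := by
    rintro j ⟨⟨p, k⟩, hp, hk, hrk⟩
    simp only at hp hk hrk
    let b := Sx T w v α p (e j).1
    have hb : b ∈ S := ⟨α, hα, p, hp, _, (e j).2, rfl⟩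
    have h4 : lam (H k n \ ⋃ i ∈ {i | b i = true}, H i n) = 0 := by
      let Q' : Set (List Ordinal.{0}) := {q | q ∈ Qs α ∧ p <+: q ∧ p.length < q.length ∧ (e j).1 ∈ q}
      have hQ' : Q'.Countable := (countable_Qs hα).mono fun q hq => hq.1
      have := hQ'.to_subtype
      have h5 : EE T w α p n ⊆ ⋃ q : Q', EE T w α q.1 n := by
        rintro x ⟨f, hf, hpf, hx⟩
        have h6 : (e j).1 ∈ Set.range f := by
          rw [hf.2]
          exact (e j).2
        obtain ⟨i, hi⟩ := h6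
        refine Set.mem_iUnion.2 ⟨⟨(List.range (max (p.length + 1) (i + 1))).map f, ?_, ?_, ?_, ?_⟩,
          f, hf, sb_range _ _, hx⟩
        · intro ξ hξ
          obtain ⟨i', -, rfl⟩ := List.mem_map.1 hξ
          have h7 : f i' ∈ Set.range f := ⟨i', rfl⟩
          rw [hf.2] at h7
          exact h7
        · have h7 : (List.range p.length).map f = p := hpf
          have h8 : (List.range p.length).map f <+:
              (List.range (max (p.length + 1) (i + 1))).map f := by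
            refine List.IsPrefix.map _ ?_
            exact List.prefix_iff_eq_take.2 (by
              rw [List.length_range, List.take_range, min_eq_left (by omega)])
          rwa [h7] at h8
        · simp
        · exact List.mem_map.2 ⟨i, List.mem_range.2 (by omega), hi⟩
      have h6 := hull_diff_iUnion h5
      have h7 : (H k n \ ⋃ i ∈ {i | b i = true}, H i n) ⊆
          (H k n \ hull (EE T w α p n)) ∪ (hull (EE T w α p n) \ ⋃ q : Q', hull (EE T w α q.1 n)) ∪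
            ⋃ q : Q', (hull (EE T w α q.1 n) \ ⋃ i ∈ {i | b i = true}, H i n) := by
        rintro x ⟨hx1, hx2⟩
        by_cases hx3 : x ∈ hull (EE T w α p n)
        · by_cases hx4 : x ∈ ⋃ q : Q', hull (EE T w α q.1 n)
          · obtain ⟨q, hq⟩ := Set.mem_iUnion.1 hx4
            exact Or.inr (Set.mem_iUnion.2 ⟨q, hq, hx2⟩)
          · exact Or.inl (Or.inr ⟨hx3, hx4⟩)
        · exact Or.inl (Or.inl ⟨hx1, hx3⟩)
      refine measure_mono_null h7 ?_
      refine measure_union_null (measure_union_null (hH1 α p k hk n) h6) ?_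
      refine measure_iUnion_null fun q => ?_
      obtain ⟨i, hi⟩ := hex α hα q.1 q.2.1
      refine measure_mono_null ?_ (hH2 α q.1 i hi n)
      rintro x ⟨hx1, hx2⟩
      refine ⟨hx1, fun hx3 => hx2 ?_⟩
      refine Set.mem_biUnion (x := i) ?_ hx3
      exact decide_eq_true ⟨q.1, q.2.1, q.2.2.1, q.2.2.2.1, q.2.2.2.2, by rw [hcol]; exact hi.symm⟩
    have h5 : r ∈ ⋃ i ∈ {i | b i = true}, H i n := by
      by_contra h5
      exact hr1 (Set.mem_biUnion hb (Set.mem_biUnion (x := (k, n)) h4 ⟨hrk, h5⟩))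
    obtain ⟨i, hi, hri⟩ := Set.mem_iUnion₂.1 h5
    obtain ⟨q, hq1, hq2, hq3, hq4, hq5⟩ := of_decide_eq_true hi
    rw [hcol] at hq5
    exact ⟨⟨(q, i), hq1, hq5.symm, hri⟩, hq2, hq3, hq4⟩
  choose nx hx1 hx2 hx3 using hstep
  let s : ℕ → {s : List Ordinal.{0} × ℕ // s.1 ∈ Qs α ∧ γ s.2 = hv (EE T w α s.1) ∧
      r ∈ H s.2 n} := fun j => Nat.rec ⟨([], k₀), hnil, hk₀, hn⟩ (fun j t => nx j t) j
  have hs1 : ∀ j, (s j).1.1 <+: (s (j + 1)).1.1 := fun j => hx1 j (s j)
  have hs2 : ∀ j, (s j).1.1.length < (s (j + 1)).1.1.length := fun j => hx2 j (s j)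
  have hs3 : ∀ j, (e j).1 ∈ (s (j + 1)).1.1 := fun j => hx3 j (s j)
  have hpre : ∀ i j, i ≤ j → (s i).1.1 <+: (s j).1.1 := by
    intro i j h
    induction j, h using Nat.le_induction with
    | base => exact List.prefix_rfl
    | succ j _ ih => exact ih.trans (hs1 j)
  have hlen : ∀ j, j ≤ (s j).1.1.length := by
    intro j
    induction j with
    | zero => exact Nat.zero_le _
    | succ j ih => exact Nat.succ_le_of_lt (ih.trans_lt (hs2 j))
  let f : ℕ → Ordinal.{0} := fun i => (s (i + 1)).1.1.getD i 0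
  have hget : ∀ i j j', i < (s j).1.1.length → j ≤ j' →
      (s j').1.1.getD i 0 = (s j).1.1.getD i 0 := by
    intro i j j' hi hj
    obtain ⟨δ, hδ⟩ := hpre j j' hj
    rw [← hδ, List.getD_append _ _ _ _ hi]
  have hf : ∀ i j, i < (s j).1.1.length → f i = (s j).1.1.getD i 0 := by
    intro i j hi
    have h4 : i < (s (i + 1)).1.1.length := lt_of_lt_of_le (Nat.lt_succ_self i) (hlen (i + 1))
    rcases le_total (i + 1) j with h | h
    · exact (hget i (i + 1) j h4 h).symm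
    · exact hget i j (i + 1) hi h
  have hSb : ∀ j, Sb (s j).1.1 f := by
    intro j
    refine List.ext_getElem (by simp) fun i h4 h5 => ?_
    simp only [List.getElem_map, List.getElem_range]
    rw [hf i j h5, List.getD_eq_getElem _ _ h5]
  have hf0 : f 0 = α := by
    have h4 : 0 < (s 1).1.1.length := hlen 1
    -- the set is not empty
    have h5 : (EE T w α (s 1).1.1 n).Nonempty := by
      by_contra h5
      rw [Set.not_nonempty_iff_eq_empty] at h5
      have h6 : lam (H (s 1).1.2 n) = 0 := by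
        have h7 := hH1 α (s 1).1.1 (s 1).1.2 (s 1).2.2.1 n
        rw [h5] at h7
        have h8 : lam (hull ∅) = 0 := by
          unfold hull
          rw [measure_toMeasurable]
          simp
        refine measure_mono_null (t := (H (s 1).1.2 n \ hull ∅) ∪ hull ∅) (fun x hx => ?_)
          (measure_union_null h7 h8)
        by_cases h9 : x ∈ hull ∅
        · exact Or.inr h9
        · exact Or.inl ⟨hx, h9⟩
      exact hr4 (Set.mem_biUnion (x := ((s 1).1.2, n)) h6 (s 1).2.2.2)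
    obtain ⟨x, g, hg, hg', -⟩ := h5
    have h6 := (hSb 1).getD h4
    have h7 := hg'.getD h4
    rw [← h6, h7]
    exact hg.1
  have hPrs : Prs α f := by
    refine ⟨hf0, ?_⟩
    ext t
    constructor
    · rintro ⟨i, rfl⟩
      have h4 : i < (s (i + 1)).1.1.length := lt_of_lt_of_le (Nat.lt_succ_self i) (hlen (i + 1))
      have h5 : (s (i + 1)).1.1.getD i 0 ∈ (s (i + 1)).1.1 := by
        rw [List.getD_eq_getElem _ _ h4]
        exact List.getElem_mem _
      exact (s (i + 1)).2.1 _ h5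
    · intro ht
      obtain ⟨j, hj⟩ := he ⟨t, ht⟩
      have h4 := hs3 j
      rw [hj] at h4
      obtain ⟨i, hi, h5⟩ := List.getElem_of_mem h4
      refine ⟨i, ?_⟩
      rw [hf i (j + 1) hi, List.getD_eq_getElem _ _ hi, h5]
  -- the point avoids the test
  have havoid : r ∉ Helper227.UE T (join w (cf f)) n := by
    rintro ⟨i, t, h4⟩
    have h5 : T (pre (join w (cf f)) (2 * (s i).1.1.length), n, pre r t) :=
      hT.mono _ _ _ _ _ (pre_prefix _ (by have := hlen i; omega)) List.prefix_rfl h4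
    have h6 : lam (H (s i).1.2 n ∩ F (pre (join w (cf f)) (2 * (s i).1.1.length)) n) = 0 := by
      have h7 : MeasurableSet (F (pre (join w (cf f)) (2 * (s i).1.1.length)) n) :=
        measurableSet_fin T _ _
      have h8 : EE T w α (s i).1.1 n ∩ F (pre (join w (cf f)) (2 * (s i).1.1.length)) n = ∅ := by
        ext x
        simp only [Set.mem_inter_iff, Set.mem_empty_iff_false, iff_false, not_and]
        rintro ⟨g, hg, hg', hx⟩ ⟨t', ht'⟩
        refine hx ⟨2 * (s i).1.1.length, t', ?_⟩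
        rw [← jn_pre, ← pre_cf hg', pre_cf (hSb i), jn_pre]
        exact ht'
      have h9 := hull_inter_null h7 h8
      refine measure_mono_null (t := (H (s i).1.2 n \ hull (EE T w α (s i).1.1 n)) ∪
        (hull (EE T w α (s i).1.1 n) ∩ F (pre (join w (cf f)) (2 * (s i).1.1.length)) n)) ?_
        (measure_union_null (hH1 α _ _ (s i).2.2.1 n) h9)
      rintro x ⟨hx1, hx2⟩
      by_cases hx3 : x ∈ hull (EE T w α (s i).1.1 n)
      · exact Or.inr ⟨hx3, hx2⟩
      · exact Or.inl ⟨hx1, hx3⟩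
    exact hr2 (Set.mem_biUnion (x := (((s i).1.2, n),
      pre (join w (cf f)) (2 * (s i).1.1.length))) h6 ⟨(s i).2.2.2, t, h5⟩)
  -- the conclusion
  obtain ⟨y, ⟨hy1, hy2⟩, hy3⟩ := hw _ _ (codes_cf hPrs)
  exact havoid (hT.cap _ _ hy3 hy1 n (Set.mem_iInter.2 fun n => hy2 r hr n))

end Pool.Agent.N480.OS
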