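import Pool.Agent.N480.OS.Frc

set_option autoImplicit false

/-! Sequences of sections of a Borel set. -/

namespace Pool.Agent.N480.OS

open Pool.Agent.Helper227 Pool.Agent.N620.WP
open MeasureTheory Ordinal Cardinal Filter Topology Encodable
open Pool.Agent.H685R3 (TuringInvariant Determined)
open Pool.Agent.Y588.PD (Fam RLe exists_fam)

variable {α α' : Ordinal.{0}} {g g' : ℕ → Option Ordinal.{0}} {m m' : ℕ}

/-- The section of `D`. -/
def Sec (D : Set ((ℕ → Bool) × (ℕ → Bool))) (r : ℕ → Bool) : Set (ℕ → Bool) := {s | (s, r) ∈ D}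

/-- The forcing relation for the sections of `D` does not depend on the large tags. -/
def Inv (β : Ordinal.{0}) (D : Set ((ℕ → Bool) × (ℕ → Bool))) : Prop :=
  ∀ (r : ℕ → Bool) (α α' : Ordinal.{0}) (m : ℕ) (g g' : ℕ → Option Ordinal.{0}), α < ω₁ →
    α' < ω₁ → Vd α g m → Vd α' g' m → Ev β m g g' → Fo α m g (Sec D r) → Fo α' m g' (Sec D r)

/-- The sets for which forcing is well behaved. -/
def Gd (D : Set ((ℕ → Bool) × (ℕ → Bool))) : Prop :=
  (∀ r α, α < ω₁ → Dc α (Sec D r)) ∧ ∃ β < ω₁, Inv β D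

theorem Inv.mono {β γ : Ordinal.{0}} {D : Set ((ℕ → Bool) × (ℕ → Bool))} (h : Inv γ D)
    (hγ : γ ≤ β) : Inv β D := fun r α α' m g g' h1 h2 h3 h4 h5 h6 =>
  h r α α' m g g' h1 h2 h3 h4 (h5.mono hγ) h6

theorem Gd.compl {D : Set ((ℕ → Bool) × (ℕ → Bool))} (h : Gd D) : Gd Dᶜ := by
  obtain ⟨h1, β, hβ, h2⟩ := h
  refine ⟨fun r α hα => (h1 r α hα).compl, Order.succ β, succ_lt_omega_one hβ, ?_⟩
  intro r α α' m g g' hα hα' hg hg' he hF
  have h3 : Fo α m g (Sec D r)ᶜ := hF
  change Fo α' m g' (Sec D r)ᶜ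
  rw [Fo.compl_iff hα (h1 r α hα) hg] at h3
  rw [Fo.compl_iff hα' (h1 r α' hα') hg']
  intro m1 g1 h4 h5 h6
  obtain ⟨g2, h7, h8, h9⟩ := he.symm.extend (Order.lt_succ β) hg' hg h4 h5
  exact h3 m1 g2 h7 h8 (h2 r α' α m1 g1 g2 hα' hα h5 h8 h9 h6)

theorem Gd.iUnion {D : ℕ → Set ((ℕ → Bool) × (ℕ → Bool))} (h : ∀ n, Gd (D n)) :
    Gd (⋃ n, D n) := by
  have h1 : ∀ n r α, α < ω₁ → Dc α (Sec (D n) r) := fun n => (h n).1
  choose β hβ h2 using fun n => (h n).2
  have hS : ∀ r, Sec (⋃ n, D n) r = ⋃ n, Sec (D n) r := by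
    intro r
    ext s
    simp [Sec]
  let b : Ordinal.{0} := ⨆ n, β n
  have hb : b < ω₁ := Ordinal.iSup_lt_omega_one hβ
  have hle : ∀ n, β n ≤ b := fun n => Ordinal.le_iSup _ n
  refine ⟨fun r α hα => ?_, Order.succ (Order.succ b),
    succ_lt_omega_one (succ_lt_omega_one hb), ?_⟩
  · rw [hS]
    exact Dc.iUnion hα fun n => h1 n r α hα
  · intro r α α' m g g' hα hα' hg hg' he hF
    rw [hS] at hF ⊢
    rw [Fo.iUnion_iff hα (fun n => h1 n r α hα) hg] at hF
    rw [Fo.iUnion_iff hα' (fun n => h1 n r α' hα') hg']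
    intro m1 g1 h3 h4
    obtain ⟨g2, h5, h6, h7⟩ := he.symm.extend (Order.lt_succ _) hg' hg h3 h4
    obtain ⟨m3, g3, h8, h9, n, h10⟩ := hF m1 g2 h5 h6
    obtain ⟨g4, h11, h12, h13⟩ := h7.symm.extend (Order.lt_succ b) h6 h4 h8 h9
    exact ⟨m3, g4, h11, h12, n, (h2 n).mono (hle n) r α α' m3 g3 g4 hα hα' h9 h12 h13 h10⟩

theorem Gd.const {D : Set ((ℕ → Bool) × (ℕ → Bool))} (h : ∀ r, Sec D r = Set.univ ∨ Sec D r = ∅) :
    Gd D := by
  refine ⟨fun r α hα m g hg => ⟨m, g, Ex.refl _ _, hg, ?_⟩, 0, omega_pos 1, ?_⟩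
  · rcases h r with h1 | h1
    · rw [h1]
      exact Or.inl Fo.univ
    · rw [h1, Set.compl_empty]
      exact Or.inr Fo.univ
  · intro r α α' m g g' hα hα' hg hg' he hF
    rcases h r with h1 | h1
    · rw [h1]
      exact Fo.univ
    · rw [h1] at hF
      exact absurd hF (Fo.false hα hg)

theorem Gd.bit (i : ℕ) : Gd {p | p.1 i = true} := by
  refine ⟨fun r α _ => Dc.bit, 1, ?_, ?_⟩
  · exact lt_of_lt_of_le Ordinal.one_lt_omega0 omega0_lt_omega_one.le
  · intro r α α' m g g' hα hα' hg hg' he hF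
    change Fo α m g {s | s i = true} at hF
    change Fo α' m g' {s | s i = true}
    rw [Fo.bit_iff hα] at hF
    rw [Fo.bit_iff hα']
    intro m1 g1 h1 h2 h3
    obtain ⟨g2, h4, h5, h6⟩ := he.symm.extend (γ := 0) zero_lt_one hg' hg h1 h2
    rw [h6.st h3]
    exact hF m1 g2 h4 h5 h3

/-- Borel sets are good. -/
theorem Gd.of_measurable {D : Set ((ℕ → Bool) × (ℕ → Bool))} (hD : MeasurableSet D) : Gd D := by
  let M : MeasurableSpace ((ℕ → Bool) × (ℕ → Bool)) :=
    { MeasurableSet' := Gd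
      measurableSet_empty := Gd.const fun r => Or.inr rfl
      measurableSet_compl := fun D h => h.compl
      measurableSet_iUnion := fun f h => Gd.iUnion h }
  have hle : (Prod.instMeasurableSpace : MeasurableSpace ((ℕ → Bool) × (ℕ → Bool))) ≤ M := by
    refine sup_le ?_ ?_
    · rw [MeasurableSpace.comap_le_iff_le_map]
      have h1 : @Measurable _ _ M _ (Prod.fst : (ℕ → Bool) × (ℕ → Bool) → ℕ → Bool) := by
        refine @measurable_pi_iff _ _ _ M _ _ |>.2 fun i => ?_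
        refine @measurable_to_bool _ M _ ?_
        exact Gd.bit i
      exact fun s hs => h1 hs
    · rw [MeasurableSpace.comap_le_iff_le_map]
      have h1 : @Measurable _ _ M _ (Prod.snd : (ℕ → Bool) × (ℕ → Bool) → ℕ → Bool) := by
        refine @measurable_pi_iff _ _ _ M _ _ |>.2 fun i => ?_
        refine @measurable_to_bool _ M _ ?_
        refine Gd.const fun r => ?_
        cases h : r i
        · right
          ext s
          simp [Sec, h]
        · left
          ext s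
          simp [Sec, h]
      exact fun s hs => h1 hs
  exact hle D hD

/-- The equivalence classes of conditions modulo agreement up to `ω * β` are countably many. -/
theorem exists_representatives {β : Ordinal.{0}} (hβ : β < ω₁) :
    ∃ c : ℕ → Ordinal.{0} × ℕ × (ℕ → Option Ordinal.{0}), ∀ α m g, α < ω₁ → 0 < m → Vd α g m →
      ∃ n, (c n).1 < ω₁ ∧ (c n).2.1 = m ∧ Vd (c n).1 (c n).2.2 m ∧ Ev β m g (c n).2.2 := by
  classical
  have hωβ : ω * β < ω₁ := by
    have h2 : (ω * β).card < ℵ₁ := by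
      rw [Ordinal.card_mul]
      have h3 : β.card ≤ ℵ₀ := by
        rw [← Order.lt_succ_iff, Cardinal.succ_aleph0, ← Cardinal.lt_ord, Cardinal.ord_aleph]
        exact hβ
      rw [← Cardinal.succ_aleph0, Order.lt_succ_iff]
      exact (mul_le_mul' (by simp) h3).trans_eq Cardinal.aleph0_mul_aleph0
    rw [← Cardinal.ord_aleph, Cardinal.lt_ord]
    exact h2
  have := countable_Iic hωβ
  let T : (ℕ → Option Ordinal.{0}) → ℕ → Option {t : Ordinal.{0} // t ≤ ω * β} := fun g n =>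
    (g n).map fun t => ⟨min t (ω * β), min_le_right _ _⟩
  let P : List (Option {t : Ordinal.{0} // t ≤ ω * β}) → Ordinal.{0} × ℕ × (ℕ → Option Ordinal.{0}) →
    Prop := fun l c => c.1 < ω₁ ∧ 0 < c.2.1 ∧ Vd c.1 c.2.2 c.2.1 ∧ (List.range c.2.1).map (T c.2.2) = l
  have : Nonempty (List (Option {t : Ordinal.{0} // t ≤ ω * β})) := ⟨[]⟩
  obtain ⟨e, he⟩ := exists_surjective_nat (List (Option {t : Ordinal.{0} // t ≤ ω * β}))
  refine ⟨fun n => if h : ∃ c, P (e n) c then Classical.choose h else (0, 0, fun _ => none), ?_⟩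
  intro α m g hα hm hg
  obtain ⟨n, hn⟩ := he ((List.range m).map (T g))
  have h1 : ∃ c, P (e n) c := ⟨(α, m, g), hα, hm, hg, hn.symm⟩
  refine ⟨n, ?_⟩
  beta_reduce
  rw [dif_pos h1]
  have h2 := Classical.choose_spec h1
  set c := Classical.choose h1 with hc
  obtain ⟨h3, h4, h5, h6⟩ := h2
  rw [hn] at h6
  have h7 : c.2.1 = m := by
    have := congrArg List.length h6
    simpa using this
  refine ⟨h3, h7, by rw [← h7]; exact h5, ?_⟩
  intro k hk
  have hk' : k < m := by omega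
  rw [h7] at h6
  have h8 := List.map_inj_left.1 h6 k (List.mem_range.2 hk')
  have h9 := congrArg (Option.map Subtype.val) h8
  simp only [T, Option.map_map] at h9
  exact h9.symm

variable {E : ℕ → List Bool → ℕ → Bool → Prop}

/-- For a selected real and a presentation there is a condition on which the functional `e` gives
elements of `K α` on a nonmeager set. -/
theorem exists_condition (hE : Fam E) (hE' : ∀ x y, TLe x y ↔ RLe E x y)
    {K : Ordinal.{0} → Set (ℕ → Bool)} {w : ℕ → Bool}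
    (hw : ∀ c α, Codes c α → ∃ y ∈ K α, TLe y (join w c)) (hα : α < ω₁) :
    ∃ e m g, 0 < m ∧ Vd α g m ∧ ∀ m' g', Ex m g m' g' → Vd α g' m' →
      ¬ Fo α m' g' {s | Psi (UE E) e (join w s) ∈ K α}ᶜ := by
  by_contra hcon
  push Not at hcon
  have h1 : ∀ e, Fo α 0 (g0 α) {s | Psi (UE E) e (join w s) ∈ K α}ᶜ := by
    intro e
    refine Fo.dense hα (vd_g0 α) fun m' g' h1 h2 => ?_
    have h3 : Ex m' g' (m' + 1) (ct m' g') :=
      ⟨Nat.le_succ _, fun j hj => by rw [ct, if_pos (Or.inr hj)]⟩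
    obtain ⟨m'', g'', h4, h5, h6⟩ := hcon e (m' + 1) (ct m' g') (Nat.succ_pos _) (h2.ct _)
    exact ⟨m'', g'', h3.trans h4, h5, h6⟩
  obtain ⟨𝒟, h2, h3, h4⟩ := Fo.iInter h1
  have := h2.to_subtype
  obtain ⟨G, h5, h6, h7, h8⟩ := exists_generic (ι := 𝒟) hα (D := fun D => D.1)
    (fun D => h3 D.1 D.2) (vd_g0 α)
  have h9 := h4 G h5 h6 fun D hD => by
    obtain ⟨m', g', -, h7, h8, h9⟩ := h8 ⟨D, hD⟩
    exact ⟨m', g', h7, h8, h9⟩
  obtain ⟨y, hy, h10⟩ := exists_functional hw h7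
  obtain ⟨e, he⟩ := (hE' _ _).1 h10
  have h11 : Psi (UE E) e (join w (st G)) = y := Cmp.psi hE he
  rw [Set.mem_iInter] at h9
  refine h9 e ?_
  change Psi (UE E) e (join w (st G)) ∈ K α
  rw [h11]
  exact hy

theorem measurable_pair (hE : Fam E) (w : ℕ → Bool) (e : ℕ) :
    Measurable fun p : (ℕ → Bool) × (ℕ → Bool) => (Psi (UE E) e (join w p.1), p.2) := by
  refine Measurable.prodMk ?_ measurable_snd
  exact (measurable_psi' hE e).comp ((continuous_join w).measurable.comp measurable_fst)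

/-- If the sections of a Borel set `D` at the members of each `K α` agree, then only countably many
sections occur. -/
theorem sections_countable {K : Ordinal.{0} → Set (ℕ → Bool)} (hK : ∀ α < ω₁, (K α).Nonempty)
    (hdet : Determined (Att K)) {D : Set ((ℕ → Bool) × (ℕ → Bool))} (hD : MeasurableSet D)
    {B : Ordinal.{0} → Set (ℕ → Bool)} (hB : ∀ α < ω₁, ∀ y ∈ K α, ∀ r, r ∈ B α ↔ (y, r) ∈ D) :
    {S | ∃ α < ω₁, S = B α}.Countable := by
  classical
  obtain ⟨E, hE, hE'⟩ := exists_fam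
  obtain ⟨w, hw⟩ := select hK hdet
  let D' : ℕ → Set ((ℕ → Bool) × (ℕ → Bool)) := fun e =>
    {p | (Psi (UE E) e (join w p.1), p.2) ∈ D}
  have hD' : ∀ e, MeasurableSet (D' e) := fun e => measurable_pair hE w e hD
  have hG : ∀ e, Gd (D' e) := fun e => Gd.of_measurable (hD' e)
  choose hG1 hG2 using hG
  choose β hβ hI using hG2
  have key : ∀ α < ω₁, ∃ e m g, 0 < m ∧ Vd α g m ∧
      ∀ r, r ∈ B α ↔ Fo α m g (Sec (D' e) r) := by
    intro α hα
    obtain ⟨e, m, g, h1, h2, h3⟩ := exists_condition hE hE' hw hα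
    refine ⟨e, m, g, h1, h2, fun r => ?_⟩
    constructor
    · intro hr
      have h4 : Fo α m g ((Sec (D' e) r)ᶜ)ᶜ := by
        rw [Fo.compl_iff hα (hG1 e r α hα).compl h2]
        intro m' g' h5 h6 h7
        refine h3 m' g' h5 h6 (h7.mono fun s hs hs' => hs ?_)
        exact (hB α hα _ hs' r).1 hr
      rwa [compl_compl] at h4
    · intro hF
      by_contra hr
      have h4 : Fo α m g (Sec (D' e) r)ᶜ := by
        rw [Fo.compl_iff hα (hG1 e r α hα) h2]
        intro m' g' h5 h6 h7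
        refine h3 m' g' h5 h6 (h7.mono fun s hs hs' => hr ?_)
        exact (hB α hα _ hs' r).2 hs
      have h5 := hF.inter h4
      rw [Set.inter_compl_self] at h5
      exact Fo.false hα h2 h5
  choose c hc using fun e => exists_representatives (hβ e)
  have hcount : (⋃ e, Set.range fun n => {r | Fo (c e n).1 (c e n).2.1 (c e n).2.2
      (Sec (D' e) r)}).Countable := Set.countable_iUnion fun e => Set.countable_range _
  refine hcount.mono ?_
  rintro S ⟨α, hα, rfl⟩
  obtain ⟨e, m, g, h1, h2, h3⟩ := key α hα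
  obtain ⟨n, h4, h5, h6, h7⟩ := hc e α m g hα h1 h2
  refine Set.mem_iUnion.2 ⟨e, n, ?_⟩
  ext r
  simp only [Set.mem_ofPred_eq]
  rw [h3 r, h5]
  constructor
  · exact hI e r _ _ m _ _ h4 hα h6 h2 h7.symm
  · exact hI e r _ _ m _ _ hα h4 h2 h6 h7

end Pool.Agent.N480.OS
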