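import Pool.Agent.N480.OS.Fus

set_option autoImplicit false

/-! The selection principle. -/

namespace Pool.Agent.N480.OS

open Pool.Agent.Helper227 Pool.Agent.N620.WP
open MeasureTheory Ordinal Cardinal Filter Topology
open Pool.Agent.H685R3 (TuringInvariant Determined)
open Pool.Agent.Y588.PD (Fam RLe exists_fam)

variable {E : ℕ → List Bool → ℕ → Bool → Prop} {K : Ordinal.{0} → Set (ℕ → Bool)}

/-- The set attached to `K`. -/
def Att (K : Ordinal.{0} → Set (ℕ → Bool)) : Set (ℕ → Bool) :=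
  {x | ∀ c α, TLe c x → Codes c α → ∃ y ∈ K α, TLe y x}

theorem inv_Att : TuringInvariant (Att K) := by
  intro x y h1 h2 hx c α hc hα
  obtain ⟨v, hv, h3⟩ := hx c α (TLe.trans hc h2) hα
  exact ⟨v, hv, TLe.trans h3 h1⟩

theorem measurable_psi' (hE : Fam E) (e : ℕ) : Measurable fun y : ℕ → Bool => Psi (UE E) e y := by
  classical
  refine measurable_pi_iff.2 fun m => measurable_to_bool ?_
  have h1 : (fun y : ℕ → Bool => Psi (UE E) e y m) ⁻¹' {true} =
      (⋂ n : ℕ, ⋃ b : Bool, UE E e n b) ∩ UE E e m true := by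
    ext y
    simp only [Set.mem_preimage, Set.mem_singleton_iff, Psi, Set.mem_inter_iff, Set.mem_iInter,
      Set.mem_iUnion]
    by_cases hd : Dm (UE E) e y
    · rw [if_pos hd]
      exact ⟨fun h => ⟨hd, of_decide_eq_true h⟩, fun h => decide_eq_true h.2⟩
    · rw [if_neg hd]
      exact ⟨fun h => absurd h (by simp), fun h => absurd h.1 hd⟩
  rw [h1]
  refine MeasurableSet.inter (MeasurableSet.iInter fun n => MeasurableSet.iUnion fun b => ?_) ?_
  · exact ((pf_UE hE).isOpen e n b).measurableSet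
  · exact ((pf_UE hE).isOpen e m true).measurableSet

theorem measurable_cone (hE : Fam E) (hE' : ∀ x y, TLe x y ↔ RLe E x y) (z : ℕ → Bool) :
    MeasurableSet {x : ℕ → Bool | TLe z x} := by
  have h1 : {x : ℕ → Bool | TLe z x} = ⋃ e, ⋂ n, UE E e n (z n) := by
    ext x
    simp only [Set.mem_ofPred_eq, Set.mem_iUnion, Set.mem_iInter]
    exact hE' z x
  rw [h1]
  exact MeasurableSet.iUnion fun e => MeasurableSet.iInter fun n =>
    ((pf_UE hE).isOpen e n (z n)).measurableSet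

theorem analytic_cone (hE : Fam E) (hE' : ∀ x y, TLe x y ↔ RLe E x y) (z : ℕ → Bool) :
    AnalyticSet {x : ℕ → Bool | TLe z x} := by
  have := polish
  exact (measurable_cone hE hE' z).analyticSet

theorem analytic_illfounded {φ : (ℕ → Bool) → ℕ → Bool} (hφ : Measurable φ) :
    AnalyticSet {x : ℕ → Bool | ¬ WellFounded (Rel (φ x))} := by
  have h1 : {x : ℕ → Bool | ¬ WellFounded (Rel (φ x))} =
      Prod.fst '' {p : (ℕ → Bool) × (ℕ → ℕ) | ∀ k, Rel (φ p.1) (p.2 (k + 1)) (p.2 k)} := by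
    ext x
    constructor
    · intro hx
      rw [Set.mem_ofPred_eq, wellFounded_iff_isEmpty_descending_chain] at hx
      rw [not_isEmpty_iff] at hx
      obtain ⟨f, hf⟩ := hx
      exact ⟨(x, f), hf, rfl⟩
    · rintro ⟨p, hp, rfl⟩ hx
      exact (wellFounded_iff_isEmpty_descending_chain.1 hx).false ⟨p.2, hp⟩
  rw [h1]
  refine MeasurableSet.analyticSet_image ?_ measurable_fst
  have h2 : {p : (ℕ → Bool) × (ℕ → ℕ) | ∀ k, Rel (φ p.1) (p.2 (k + 1)) (p.2 k)} =
      ⋂ k, ⋃ m, {p | Nat.pair (p.2 (k + 1)) (p.2 k) = m} ∩ {p | φ p.1 m = true} := by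
    ext p
    simp only [Set.mem_ofPred_eq, Set.mem_iInter, Set.mem_iUnion, Set.mem_inter_iff]
    refine forall_congr' fun k => ?_
    constructor
    · intro h
      exact ⟨_, rfl, h⟩
    · rintro ⟨m, rfl, h⟩
      exact h
  rw [h2]
  refine MeasurableSet.iInter fun k => MeasurableSet.iUnion fun m => MeasurableSet.inter ?_ ?_
  · have h3 : Measurable fun p : (ℕ → Bool) × (ℕ → ℕ) => Nat.pair (p.2 (k + 1)) (p.2 k) := by
      have h4 : Measurable fun p : (ℕ → Bool) × (ℕ → ℕ) => ((p.2 (k + 1), p.2 k) : ℕ × ℕ) :=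
        ((measurable_pi_apply _).comp measurable_snd).prodMk
          ((measurable_pi_apply _).comp measurable_snd)
      exact (measurable_of_countable (fun q : ℕ × ℕ => Nat.pair q.1 q.2)).comp h4
    exact h3 (measurableSet_singleton m)
  · have h3 : Measurable fun p : (ℕ → Bool) × (ℕ → ℕ) => φ p.1 m :=
      (measurable_pi_apply m).comp (hφ.comp measurable_fst)
    exact h3 (measurableSet_singleton true)

theorem countable_Iic {ρ : Ordinal.{0}} (h : ρ < ω₁) : Countable {β : Ordinal.{0} // β ≤ ρ} := by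
  have h1 : Order.succ ρ < ω₁ := succ_lt_omega_one h
  have h2 : #(Set.Iio (Order.succ ρ)) ≤ ℵ₀ := by
    rw [Cardinal.mk_Iio_ordinal]
    rw [Cardinal.lift_le_aleph0, ← Order.lt_succ_iff, Cardinal.succ_aleph0, ← Cardinal.lt_ord,
      Cardinal.ord_aleph]
    exact h1
  have h3 : (Set.Iio (Order.succ ρ)).Countable := Cardinal.le_aleph0_iff_set_countable.1 h2
  refine (h3.mono fun β (hβ : β ≤ ρ) => Order.lt_succ_iff.2 hβ).to_subtype

/-- The attached set is big. -/
theorem big_Att (hE : Fam E) (hE' : ∀ x y, TLe x y ↔ RLe E x y)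
    (hK : ∀ α < ω₁, (K α).Nonempty) : Big (Att K) := by
  classical
  have := polish
  intro z
  let Req : ℕ → (ℕ → Bool) → Prop := fun e x =>
    ∀ α, Codes (Psi (UE E) e x) α → ∃ y ∈ K α, TLe y x
  have H : ∀ e n F, St n F → ∃ n' F', n < n' ∧ St n' F' ∧ F' ⊆ F ∧
      (∀ p ∈ F', ∀ q ∈ F', ph n p = ph n q) ∧ ∀ x ∈ Prod.fst '' F', Req e x := by
    intro e n F h
    by_cases hb : Big ({x : ℕ → Bool | ¬ WellFounded (Rel (Psi (UE E) e x))} ∩ Prod.fst '' F)
    · obtain ⟨F', h1, h2, h3, h4⟩ := h.step (analytic_illfounded (measurable_psi' hE e)) hb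
      refine ⟨n + 1, F', Nat.lt_succ_self n, h1, h2, h4, fun x hx α hα => ?_⟩
      obtain ⟨h5, -⟩ := hα
      exact absurd h5.wf (h3 hx)
    · unfold Big at hb
      push Not at hb
      obtain ⟨z', hz'⟩ := hb
      have hb1 : Big ({x : ℕ → Bool | TLe z' x} ∩ Prod.fst '' F) :=
        (h.big.cone z').mono fun x hx => ⟨hx.2, hx.1⟩
      obtain ⟨F1, h1, h2, h3, h4⟩ := h.step (analytic_cone hE hE' z') hb1
      have hW : ∀ x ∈ Prod.fst '' F1, WellFounded (Rel (Psi (UE E) e x)) := by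
        intro x hx
        by_contra hc
        exact hz' x ⟨hc, Set.image_mono h2 hx⟩ (h3 hx)
      have hA : AnalyticSet ((fun p : Wt => Psi (UE E) e p.1) '' F1) :=
        MeasurableSet.analyticSet_image h1.closed.measurableSet
          ((measurable_psi' hE e).comp measurable_fst)
      obtain ⟨ρ, hρ, hρ'⟩ := bounded hA (by
        rintro c ⟨p, hp, rfl⟩
        exact hW _ ⟨p, hp, rfl⟩)
      have hc := countable_Iic hρ
      choose y hy using fun β : {β : Ordinal.{0} // β ≤ ρ} => hK β.1 (β.2.trans_lt hρ)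
      have : Nonempty {β : Ordinal.{0} // β ≤ ρ} := ⟨⟨ρ, le_rfl⟩⟩
      obtain ⟨a, ha⟩ := exists_surjective_nat {β : Ordinal.{0} // β ≤ ρ}
      obtain ⟨g, hg⟩ := join_cone fun n => y (a n)
      have hb2 : Big ({x : ℕ → Bool | TLe g x} ∩ Prod.fst '' F1) :=
        (h1.big.cone g).mono fun x hx => ⟨hx.2, hx.1⟩
      obtain ⟨F2, h5, h6, h7, h8⟩ := h1.step (analytic_cone hE hE' g) hb2
      refine ⟨n + 1 + 1, F2, by omega, h5, h6.trans h2, fun p hp q hq => h4 p (h6 hp) q (h6 hq),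
        fun x hx α hα => ?_⟩
      obtain ⟨p, hp, rfl⟩ := hx
      have h9 := hρ' _ ⟨p, h6 hp, rfl⟩ α hα
      obtain ⟨m, hm⟩ := ha ⟨α, h9⟩
      refine ⟨y ⟨α, h9⟩, hy ⟨α, h9⟩, ?_⟩
      have h10 := hg m
      rw [hm] at h10
      exact h10.trans (h7 ⟨p, hp, rfl⟩)
  have h0 : St 0 (Set.univ : Set Wt) := ⟨isClosed_univ, fun _ _ _ _ _ => trivial, fun z' =>
    ⟨z', ⟨(z', fun _ _ => 0), trivial, rfl⟩, TLe.refl _⟩⟩
  obtain ⟨F1, h1, h2, h3, -⟩ := h0.step (analytic_cone hE hE' z)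
    ((h0.big.cone z).mono fun x hx => ⟨hx.2, hx.1⟩)
  obtain ⟨x, hx, hR⟩ := fusion H h1
  refine ⟨x, fun c α hc hα => ?_, h3 hx⟩
  obtain ⟨e, he⟩ := (hE' c x).1 hc
  have h5 : Psi (UE E) e x = c := Cmp.psi hE he
  have h6 := hR e α
  rw [h5] at h6
  exact h6 hα

/-- The selection principle. -/
theorem select (hK : ∀ α < ω₁, (K α).Nonempty) (hD : Determined (Att K)) :
    ∃ w, ∀ c α, Codes c α → ∃ y ∈ K α, TLe y (join w c) := by
  obtain ⟨E, hE, hE'⟩ := exists_fam
  obtain ⟨z, hz | hz⟩ := cone_of_determined (inv_Att (K := K)) hD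
  · exact ⟨z, fun c α hα => hz _ (tLe_join_left z c) c α (tLe_join_right z c) hα⟩
  · obtain ⟨x, hx, hzx⟩ := big_Att hE hE' hK z
    exact absurd hx (hz x hzx)

end Pool.Agent.N480.OS
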