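import Pool.Agent.N480.OS.Sel

set_option autoImplicit false

/-! Generic tree presentations of countable ordinals. -/

namespace Pool.Agent.N480.OS

open Pool.Agent.Helper227 Pool.Agent.N620.WP
open MeasureTheory Ordinal Cardinal Filter Topology

/-- The relation of the tree with the set of nodes `s`; the parent of `k + 1` is `k.unpair.1`. -/
def cd (s : ℕ → Bool) : ℕ → Bool := fun m =>
  decide (m.unpair.1 ≠ 0 ∧ m.unpair.2 = (m.unpair.1 - 1).unpair.1) && s m.unpair.1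

theorem rel_cd {s : ℕ → Bool} {i j : ℕ} :
    Rel (cd s) i j ↔ (i ≠ 0 ∧ j = (i - 1).unpair.1) ∧ s i = true := by
  unfold Rel cd
  simp

theorem tLe_cd (s : ℕ → Bool) : TLe (cd s) s := by
  rw [tLe_iff_SI]
  have hP : PrimrecPred fun x : ℕ × Bool =>
      x.1.unpair.1 ≠ 0 ∧ x.1.unpair.2 = (x.1.unpair.1 - 1).unpair.1 := by
    have h1 : Primrec fun x : ℕ × Bool => x.1.unpair.1 :=
      Primrec.fst.comp (Primrec.unpair.comp Primrec.fst)
    have h2 : Primrec fun x : ℕ × Bool => x.1.unpair.2 :=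
      Primrec.snd.comp (Primrec.unpair.comp Primrec.fst)
    have h3 : Primrec fun x : ℕ × Bool => (x.1.unpair.1 - 1).unpair.1 :=
      Primrec.fst.comp (Primrec.unpair.comp (Primrec.nat_sub.comp h1 (Primrec.const 1)))
    exact (PrimrecPred.not (Primrec.eq.comp h1 (Primrec.const 0))).and (Primrec.eq.comp h2 h3)
  have hQ : PrimrecPred fun x : ℕ × Bool => x.2 = false :=
    Primrec.eq.comp Primrec.snd (Primrec.const false)
  have h1 : SI s fun x : ℕ × Bool => s x.1.unpair.1 = x.2 :=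
    SI.query.comp (f := fun x : ℕ × Bool => (x.1.unpair.1, x.2))
      ((Primrec.fst.comp (Primrec.unpair.comp Primrec.fst)).pair Primrec.snd)
  refine (((SI.of_prim hP).and h1).or ((SI.of_prim hP.not).and (SI.of_prim hQ))).of_eq fun x => ?_
  unfold cd
  by_cases h : x.1.unpair.1 ≠ 0 ∧ x.1.unpair.2 = (x.1.unpair.1 - 1).unpair.1
  · simp [h]
  · simp only [h, false_and, not_false_eq_true, true_and, false_or, decide_false, Bool.false_and]
    exact eq_comm

/-- The status of the nodes. -/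
def st (g : ℕ → Option Ordinal.{0}) : ℕ → Bool := fun n => (g n).isSome

/-- The tags `g` are valid up to `m`. -/
def Vd (α : Ordinal.{0}) (g : ℕ → Option Ordinal.{0}) (m : ℕ) : Prop :=
  g 0 = some α ∧ ∀ k, k + 1 < m → ∀ t, g (k + 1) = some t → ∃ t', g k.unpair.1 = some t' ∧ t < t'

/-- The condition `(m', g')` extends the condition `(m, g)`. -/
def Ex (m : ℕ) (g : ℕ → Option Ordinal.{0}) (m' : ℕ) (g' : ℕ → Option Ordinal.{0}) : Prop :=
  m ≤ m' ∧ ∀ n < m, g' n = g n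

variable {α α' : Ordinal.{0}} {g g' : ℕ → Option Ordinal.{0}} {m m' : ℕ}

theorem Ex.refl (m : ℕ) (g : ℕ → Option Ordinal.{0}) : Ex m g m g := ⟨le_rfl, fun _ _ => rfl⟩

theorem Ex.trans {m'' : ℕ} {g'' : ℕ → Option Ordinal.{0}} (h : Ex m g m' g')
    (h' : Ex m' g' m'' g'') : Ex m g m'' g'' :=
  ⟨h.1.trans h'.1, fun n hn => (h'.2 n (hn.trans_le h.1)).trans (h.2 n hn)⟩

theorem codes_of_generic (hV : ∀ m, Vd α g m)
    (hd : ∀ n t, g n = some t → ∀ t' < t, ∃ k : ℕ, k.unpair.1 = n ∧ g (k + 1) = some t') :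
    Codes (cd (st g)) α := by
  have hR : ∀ i j, Rel (cd (st g)) i j → ∃ t t', g i = some t ∧ g j = some t' ∧ t < t' := by
    intro i j h
    rw [rel_cd] at h
    obtain ⟨⟨h1, h2⟩, h3⟩ := h
    obtain ⟨k, rfl⟩ := Nat.exists_eq_succ_of_ne_zero h1
    obtain ⟨t, ht⟩ := Option.isSome_iff_exists.1 h3
    obtain ⟨t', h4, h5⟩ := (hV (k + 2)).2 k (by omega) t ht
    refine ⟨t, t', ht, ?_, h5⟩
    rw [h2]
    exact h4
  have hW : WellFounded (Rel (cd (st g))) := by
    refine Subrelation.wf (r := InvImage (· < ·) fun i => (g i).getD 0) ?_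
      (InvImage.wf _ Ordinal.lt_wf)
    intro i j h
    obtain ⟨t, t', h1, h2, h3⟩ := hR i j h
    change (g i).getD 0 < (g j).getD 0
    rw [h1, h2]
    exact h3
  have hI : IsWellFounded ℕ (Rel (cd (st g))) := ⟨hW⟩
  refine ⟨hI, ?_⟩
  have key : ∀ i t, g i = some t → IsWellFounded.rank (Rel (cd (st g))) i = t := by
    intro i
    induction i using IsWellFounded.induction (Rel (cd (st g))) with
    | ind i ih =>
      intro t ht
      rw [IsWellFounded.rank_eq]
      apply le_antisymm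
      · refine Ordinal.iSup_le fun j => ?_
        obtain ⟨t1, t2, h1, h2, h3⟩ := hR j.1 i j.2
        rw [ih j.1 j.2 t1 h1, Order.succ_le_iff]
        rw [ht] at h2
        cases h2
        exact h3
      · refine le_of_forall_lt fun t' ht' => ?_
        obtain ⟨k, hk, hk'⟩ := hd i t ht t' ht'
        have h1 : Rel (cd (st g)) (k + 1) i := by
          rw [rel_cd]
          refine ⟨⟨by omega, by simp [hk]⟩, ?_⟩
          change (g (k + 1)).isSome = true
          rw [hk']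
          rfl
        have h2 := ih (k + 1) h1 t' hk'
        rw [Ordinal.lt_iSup_iff]
        refine ⟨⟨k + 1, h1⟩, ?_⟩
        rw [h2]
        exact Order.lt_succ t'
  exact key 0 α (hV 0).1

theorem exists_lt_child {n m : ℕ} : ∃ k : ℕ, k.unpair.1 = n ∧ m ≤ k :=
  ⟨Nat.pair n m, by simp, Nat.right_le_pair n m⟩

/-- Dense sets of conditions. -/
def Dn (α : Ordinal.{0}) (D : ℕ → (ℕ → Option Ordinal.{0}) → Prop) : Prop :=
  ∀ m g, Vd α g m → ∃ m' g', Ex m g m' g' ∧ Vd α g' m' ∧ D m' g'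

/-- Cut off the tags. -/
def ct (m : ℕ) (g : ℕ → Option Ordinal.{0}) : ℕ → Option Ordinal.{0} :=
  fun n => if n = 0 ∨ n < m then g n else none

theorem Vd.ct (h : Vd α g m) (m' : ℕ) : Vd α (ct m g) m' := by
  refine ⟨?_, fun k hk t ht => ?_⟩
  · rw [OS.ct, if_pos (Or.inl rfl)]
    exact h.1
  · unfold OS.ct at ht ⊢
    have h1 : k + 1 < m := by
      by_contra hc
      rw [if_neg (by omega)] at ht
      cases ht
    rw [if_pos (Or.inr h1)] at ht
    obtain ⟨t', h2, h3⟩ := h.2 k h1 t ht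
    refine ⟨t', ?_, h3⟩
    have h4 := Nat.unpair_left_le k
    rw [if_pos (Or.inr (by omega))]
    exact h2

/-- The requirement for the rank. -/
def Rk (n : ℕ) (t : Ordinal.{0}) (m : ℕ) (g : ℕ → Option Ordinal.{0}) : Prop :=
  n < m ∧ ∀ t0, g n = some t0 → t < t0 → ∃ k : ℕ, k + 1 < m ∧ k.unpair.1 = n ∧ g (k + 1) = some t

theorem dn_Rk (n : ℕ) (t : Ordinal.{0}) : Dn α (Rk n t) := by
  intro m g hg
  have h1 : Vd α (ct m g) (max m (n + 1)) := hg.ct _
  by_cases h : ∃ t0, ct m g n = some t0 ∧ t < t0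
  · obtain ⟨t0, h2, h3⟩ := h
    obtain ⟨k, hk, hk'⟩ := exists_lt_child (n := n) (m := max m (n + 1))
    let G : ℕ → Option Ordinal.{0} := fun j => if j = k + 1 then some t else ct m g j
    refine ⟨k + 2, G, ⟨by omega, fun j hj => ?_⟩, ⟨?_, fun j hj u hu => ?_⟩, by omega,
      fun t1 _ _ => ⟨k, by omega, hk, ?_⟩⟩
    · simp only [G]
      rw [if_neg (by omega), ct, if_pos (Or.inr hj)]
    · simp only [G]
      rw [if_neg (by omega)]
      exact h1.1
    · simp only [G] at hu ⊢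
      have h5 := Nat.unpair_left_le j
      rw [if_neg (by omega)]
      by_cases hjk : j = k
      · subst hjk
        rw [if_pos rfl] at hu
        cases hu
        refine ⟨t0, ?_, h3⟩
        rw [hk]
        exact h2
      · rw [if_neg (by omega)] at hu
        exact (hg.ct (j + 2)).2 j (by omega) u hu
    · simp [G]
  · push Not at h
    refine ⟨max m (n + 1), ct m g, ⟨le_max_left _ _, fun j hj => ?_⟩, h1, by omega,
      fun t0 h2 h3 => ?_⟩
    · rw [ct, if_pos (Or.inr hj)]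
    · exact absurd h3 (not_lt.2 (h t0 h2))

/-- Generic presentations. -/
theorem exists_generic {ι : Type*} [Countable ι] (hα : α < ω₁)
    {D : ι → ℕ → (ℕ → Option Ordinal.{0}) → Prop} (hD : ∀ i, Dn α (D i)) {m₀ : ℕ}
    {g₀ : ℕ → Option Ordinal.{0}} (h₀ : Vd α g₀ m₀) :
    ∃ G, (∀ m, Vd α G m) ∧ (∀ n < m₀, G n = g₀ n) ∧ Codes (cd (st G)) α ∧
      ∀ i, ∃ m g, m₀ ≤ m ∧ Vd α g m ∧ (∀ n < m, G n = g n) ∧ D i m g := by
  classical
  have hc := countable_Iic hα
  let J := ι ⊕ (ℕ × {t : Ordinal.{0} // t ≤ α})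
  let D' : J → ℕ → (ℕ → Option Ordinal.{0}) → Prop := fun j =>
    Sum.elim D (fun p => Rk p.1 p.2.1) j
  have hD' : ∀ j, Dn α (D' j) := by
    rintro (i | p)
    · exact hD i
    · exact dn_Rk _ _
  have : Nonempty J := ⟨Sum.inr (0, ⟨α, le_rfl⟩)⟩
  obtain ⟨a, ha⟩ := exists_surjective_nat J
  -- the sequence
  have hstep : ∀ (k : ℕ) (p : {p : ℕ × (ℕ → Option Ordinal.{0}) // Vd α p.2 p.1}),
      ∃ q : {p : ℕ × (ℕ → Option Ordinal.{0}) // Vd α p.2 p.1},
        Ex p.1.1 p.1.2 q.1.1 q.1.2 ∧ k < q.1.1 ∧ ∃ m g, Ex m g q.1.1 q.1.2 ∧ p.1.1 ≤ m ∧ Vd α g m ∧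
          D' (a k) m g := by
    rintro k ⟨⟨m, g⟩, hg⟩
    obtain ⟨m', g', h1, h2, h3⟩ := hD' (a k) m g hg
    have h4 : Ex m' g' (max m' (k + 1)) (ct m' g') :=
      ⟨le_max_left _ _, fun j hj => by rw [ct, if_pos (Or.inr hj)]⟩
    exact ⟨⟨(max m' (k + 1), ct m' g'), h2.ct _⟩, h1.trans h4, by simp only; omega, m', g', h4,
      h1.1, h2, h3⟩
  choose N hN1 hN2 hN3 using hstep
  let p : ℕ → {p : ℕ × (ℕ → Option Ordinal.{0}) // Vd α p.2 p.1} := fun k =>
    Nat.rec ⟨(m₀, g₀), h₀⟩ (fun e t => N e t) k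
  have hp : ∀ k j, k ≤ j → Ex (p k).1.1 (p k).1.2 (p j).1.1 (p j).1.2 := by
    intro k j h
    induction j, h using Nat.le_induction with
    | base => exact Ex.refl _ _
    | succ j _ ih => exact ih.trans (hN1 j (p j))
  have hk : ∀ k, k < (p (k + 1)).1.1 := fun k => hN2 k (p k)
  let G : ℕ → Option Ordinal.{0} := fun n => (p (n + 1)).1.2 n
  have hG : ∀ k, ∀ n < (p k).1.1, G n = (p k).1.2 n := by
    intro k n hn
    rcases le_total k (n + 1) with h | h
    · exact (hp k (n + 1) h).2 n hn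
    · exact ((hp (n + 1) k h).2 n (hk n)).symm
  have hV : ∀ m, Vd α G m := by
    intro m
    refine ⟨(p 1).2.1, fun k _ t ht => ?_⟩
    have h1 : k + 1 < (p (k + 2)).1.1 := hk (k + 1)
    have h2 := Nat.unpair_left_le k
    rw [hG (k + 2) (k + 1) h1] at ht
    obtain ⟨t', h3, h4⟩ := (p (k + 2)).2.2 k h1 t ht
    refine ⟨t', ?_, h4⟩
    rw [hG (k + 2) _ (by omega)]
    exact h3
  have hreq : ∀ j : J, ∃ m g, m₀ ≤ m ∧ Vd α g m ∧ (∀ n < m, G n = g n) ∧ D' j m g := by
    intro j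
    obtain ⟨k, rfl⟩ := ha j
    obtain ⟨m, g, h1, h2, h3, h4⟩ := hN3 k (p k)
    refine ⟨m, g, (hp 0 k (Nat.zero_le k)).1.trans h2, h3, fun n hn => ?_, h4⟩
    have h5 : Ex m g (p (k + 1)).1.1 (p (k + 1)).1.2 := h1
    rw [hG (k + 1) n (hn.trans_le h5.1)]
    exact h5.2 n hn
  refine ⟨G, hV, fun n hn => hG 0 n hn, codes_of_generic hV ?_, fun i => hreq (Sum.inl i)⟩
  intro n t hn t' ht'
  have h1 : t ≤ α := by
    clear ht' t'
    induction n using Nat.strong_induction_on generalizing t with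
    | _ n ih =>
      cases n with
      | zero =>
        rw [(hV 0).1] at hn
        cases hn
        exact le_rfl
      | succ k =>
        obtain ⟨t1, h2, h3⟩ := (hV (k + 2)).2 k (by omega) t hn
        have h4 := Nat.unpair_left_le k
        exact h3.le.trans (ih _ (by omega) t1 h2)
  obtain ⟨m, g, -, h2, h3, h4⟩ := hreq (Sum.inr (n, ⟨t', ht'.le.trans h1⟩))
  obtain ⟨h5, h6⟩ := h4
  obtain ⟨k, h7, h8, h9⟩ := h6 t (by rw [← h3 n h5]; exact hn) ht'
  exact ⟨k, h8, by rw [h3 _ h7]; exact h9⟩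

end Pool.Agent.N480.OS
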